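import Pool.Agent.H61.NC.Defs
import Pool.Agent.H89.Perc.Decay

/-!
# Blocking circuits and decay of annulus crossings in the box-crossing regime
-/

open MeasureTheory ProbabilityTheory unitInterval

namespace Pool.Agent.H31.EX

open Pool.Agent.H89.Perc Pool.Agent.H61.NC

lemma reg_mono_n {c : ℝ} {n n' : ℕ} {q : I} (h : RSWreg c n q) (hn : n' ≤ n) :
    RSWreg c n' q := fun m h1 h2 => h m h1 (h2.trans hn)

lemma reg_mono_c {c c' : ℝ} {n : ℕ} {q : I} (h : RSWreg c n q) (hc : c' ≤ c) :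
    RSWreg c' n q := fun m h1 h2 => ⟨hc.trans (h m h1 h2).1, hc.trans (h m h1 h2).2⟩

lemma reg_symm {c : ℝ} {n : ℕ} {q : I} (h : RSWreg c n q) : RSWreg c n (σ q) := by
  intro m h1 h2
  rw [unitInterval.symm_symm]
  exact ⟨(h m h1 h2).2, (h m h1 h2).1⟩

/-- Wide crossings at all places. -/
lemma reg_hcross {c : ℝ} {n : ℕ} {q : I} (h : RSWreg c n q) {m : ℕ} (hm : 1 ≤ m) (hmn : m ≤ n)
    {x y x' y' : ℤ} (hx : x' - x ≤ 4 * m) (hx0 : x ≤ x') (hy : (m : ℤ) ≤ y' - y) :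
    c ≤ Pr q {ω | HCross ω x x' y y'} := by
  have h1 : c ≤ Pr q {ω | HCross ω 0 (x' - x) 0 (y' - y)} :=
    ((h m hm hmn).1).trans (Pr_mono fun ω h => HCross.mono h le_rfl (by omega) hx le_rfl hy)
  have h3 := Pr_hcross_translate (p := q) (a := 0) (b := x' - x) (c := 0) (d := y' - y) x y
  have e1 : (0 : ℤ) + x = x := by ring
  have e2 : x' - x + x = x' := by ring
  have e3 : (0 : ℤ) + y = y := by ring
  have e4 : y' - y + y = y' := by ring
  rw [e1, e2, e3, e4] at h3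
  rw [h3]
  exact h1

lemma reg_vcross {c : ℝ} {n : ℕ} {q : I} (h : RSWreg c n q) {m : ℕ} (hm : 1 ≤ m) (hmn : m ≤ n)
    {x y x' y' : ℤ} (hx : y' - y ≤ 4 * m) (hx0 : y ≤ y') (hy : (m : ℤ) ≤ x' - x) :
    c ≤ Pr q {ω | VCross ω x x' y y'} := by
  rw [Pr_vcross_eq_hcross]
  exact reg_hcross h hm hmn hx hx0 hy

/-- Blocking circuits exist with positive probability. -/
theorem circuit_reg {c : ℝ} (hc : 0 < c) {n : ℕ} {q : I} (h : RSWreg c n q) {s r : ℕ}
    (hr : 4 * (s + 1) ≤ r) (hs : 1 ≤ s) (hrn : r ≤ n) : c ^ 4 ≤ Pr q {ω | dual ω ∉ DArm s r} := by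
  classical
  obtain ⟨m, hm⟩ : ∃ m : ℕ, r = m + s + 2 := ⟨r - s - 2, by omega⟩
  have hm1 : 1 ≤ m := by omega
  have h2r : 2 * r ≤ 4 * m := by omega
  have hmn : m ≤ n := by omega
  have k1 : c ≤ Pr q {ω | VCross ω (s + 1) (r - 1) (-r) r} :=
    reg_vcross h hm1 hmn (by omega) (by omega) (by omega)
  have k2 : c ≤ Pr q {ω | VCross ω (-r + 1) (-s - 1) (-r) r} :=
    reg_vcross h hm1 hmn (by omega) (by omega) (by omega)
  have k3 : c ≤ Pr q {ω | HCross ω (-r) r (s + 1) (r - 1)} :=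
    reg_hcross h hm1 hmn (by omega) (by omega) (by omega)
  have k4 : c ≤ Pr q {ω | HCross ω (-r) r (-r + 1) (-s - 1)} :=
    reg_hcross h hm1 hmn (by omega) (by omega) (by omega)
  have h12 := fkg (p := q) (localOn_vcross ((s : ℤ) + 1) (r - 1) (-r) r)
    (localOn_vcross (-(r : ℤ) + 1) (-s - 1) (-r) r) (incr_vcross _ _ _ _) (incr_vcross _ _ _ _)
  have h34 := fkg (p := q) (localOn_hcross (-(r : ℤ)) r (s + 1) (r - 1))
    (localOn_hcross (-(r : ℤ)) r (-r + 1) (-s - 1)) (incr_hcross _ _ _ _) (incr_hcross _ _ _ _)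
  have h1234 := fkg (p := q) ((localOn_vcross ((s : ℤ) + 1) (r - 1) (-r) r).inter'
      (localOn_vcross (-(r : ℤ) + 1) (-s - 1) (-r) r))
    ((localOn_hcross (-(r : ℤ)) r (s + 1) (r - 1)).inter'
      (localOn_hcross (-(r : ℤ)) r (-r + 1) (-s - 1)))
    ((incr_vcross _ _ _ _).inter (incr_vcross _ _ _ _))
    ((incr_hcross _ _ _ _).inter (incr_hcross _ _ _ _))
  have h12' := (mul_le_mul k1 k2 hc.le Pr_nonneg).trans h12
  have h34' := (mul_le_mul k3 k4 hc.le Pr_nonneg).trans h34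
  have h' := (mul_le_mul h12' h34' (by positivity) Pr_nonneg).trans h1234
  have e : c ^ 4 = c * c * (c * c) := by ring
  rw [e]
  refine h'.trans (Pr_mono ?_)
  rintro ω ⟨⟨w1, w2⟩, ⟨w3, w4⟩⟩
  exact block (by omega) w1 w2 w3 w4

/-- Annulus crossings have probability bounded away from one. -/
theorem armBox_reg_le {c : ℝ} (hc : 0 < c) {n : ℕ} {q : I} (h : RSWreg c n q) {s r : ℕ}
    (hr : 4 * (s + 1) ≤ r) (hs : 1 ≤ s) (hrn : r ≤ n) : Pr q (ArmBox 0 s r) ≤ 1 - c ^ 4 := by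
  have h1 := circuit_reg hc (reg_symm h) hr hs hrn
  have h2 := Pr_compl (p := σ q) (localOn_dual_DArm s r)
  have h3 : {ω : Config | dual ω ∉ DArm s r}ᶜ = {ω | dual ω ∈ DArm s r} := by
    ext ω
    simp only [Set.mem_compl_iff, Set.mem_ofPred_eq, not_not]
  rw [h3, Pr_dual (decay_localOn_DArm s r), unitInterval.symm_symm] at h2
  have h4 : Pr q (ArmBox 0 s r) ≤ Pr q (DArm s r) :=
    Pr_mono (armBox_subset_DArm (by omega))
  linarith

lemma armBox_subset_ann {s0 s r R : ℕ} (h0 : s0 ≤ s) (hs : s < r) (hr : r ≤ R) :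
    ArmBox 0 s0 R ⊆ Ann s r := by
  rintro ω ⟨w0, hw0, u, hu, hc⟩
  have hw0' : w0 ∈ ball 0 s := ball_subset_ball h0 hw0
  have hw0r : w0 ∈ ball 0 r := ball_subset_ball hs.le hw0'
  have h1 : ∃ x ∈ sphere 0 r, Conn ω (ball 0 R ∩ ball 0 r) w0 x := by
    refine hc.to_sphere hw0r ?_
    obtain ⟨hb, h⟩ := hu
    by_cases h2 : u ∈ ball 0 r
    · refine Or.inr ⟨h2, ?_⟩
      simp only [mem_ball, Prod.fst_zero, Prod.snd_zero] at hb h h2 ⊢
      omega
    · exact Or.inl h2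
  obtain ⟨x, hx, hc'⟩ := h1
  have hxs : x ∉ ball 0 s := by
    intro hxs
    obtain ⟨_, h⟩ := hx
    simp only [mem_ball, Prod.fst_zero, Prod.snd_zero] at hxs h
    omega
  obtain ⟨w, w', hw, _, hst, hl⟩ := hc'.exists_last (T := ball 0 s) hw0' hxs
  refine ⟨w', ?_, x, hx, hl.mono_set ?_⟩
  · have h2 := hst.fst_le
    have h3 := hst.snd_le
    simp only [mem_ball, Prod.fst_zero, Prod.snd_zero] at hw ⊢
    push_cast
    omega
  · exact fun y hy => ⟨hy.1.2, hy.2⟩

/-- Intersections of the annulus events at scales `s 16 ^ j`. -/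
def AnnS (s : ℕ) : ℕ → Set Config
  | 0 => Set.univ
  | n + 1 => AnnS s n ∩ Ann (s * 16 ^ n) (s * 16 ^ (n + 1))

lemma localOn_annS (s n : ℕ) : LocalOn (eBall (s * 16 ^ n)) (AnnS s n) := by
  classical
  induction n with
  | zero => exact fun _ _ _ _ => Set.mem_univ _
  | succ n ih =>
    have h1 : s * 16 ^ n ≤ s * 16 ^ (n + 1) :=
      Nat.mul_le_mul_left s (Nat.pow_le_pow_right (by norm_num) (Nat.le_succ n))
    exact (ih.mono (eBall_subset h1)).inter ((localOn_ann _ _).mono Finset.sdiff_subset)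

lemma armBox_subset_annS {s R : ℕ} (hs : 1 ≤ s) (n : ℕ) (h : s * 16 ^ n ≤ R) :
    ArmBox 0 s R ⊆ AnnS s n := by
  induction n with
  | zero => exact Set.subset_univ _
  | succ n ih =>
    have h1 : s * 16 ^ n < s * 16 ^ (n + 1) :=
      Nat.mul_lt_mul_of_pos_left (Nat.pow_lt_pow_right (by norm_num) (Nat.lt_succ_self n)) hs
    exact Set.subset_inter (ih (h1.le.trans h)) (armBox_subset_ann
      (Nat.le_mul_of_pos_right s (by positivity)) h1 h)

/-- Decay of annulus crossings in the box-crossing regime. -/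
theorem armBox_decay {c : ℝ} (hc : 0 < c) : ∃ C a : ℝ, 0 < C ∧ 0 < a ∧ a ≤ 1 / 4 ∧
    ∀ (n s R : ℕ) (q : I), RSWreg c n q → 1 ≤ s → s ≤ R → R ≤ n →
      Pr q (ArmBox 0 s R) ≤ C * ((s : ℝ) / R) ^ a := by
  classical
  set c' := min c 1 with hc'
  have hc0 : 0 < c' := lt_min hc one_pos
  have hc1 : c' ≤ 1 := min_le_right _ _
  have hc4 : 0 < c' ^ 4 := by positivity
  have hc41 : c' ^ 4 ≤ 1 := pow_le_one₀ hc0.le hc1
  set t : ℝ := 1 - c' ^ 4 / 2 with ht
  have ht0 : 0 < t := by linarith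
  have ht1 : t < 1 := by linarith
  have hlog : Real.log t < 0 := Real.log_neg ht0 ht1
  have hlog16 : 0 < Real.log 16 := Real.log_pos (by norm_num)
  set a0 : ℝ := - Real.log t / Real.log 16 with ha0
  have ha0p : 0 < a0 := div_pos (neg_pos.2 hlog) hlog16
  refine ⟨1 / t, min a0 (1 / 4), by positivity, lt_min ha0p (by norm_num), min_le_right _ _, ?_⟩
  intro n s R q hreg hs hsR hRn
  have hreg' : RSWreg c' n q := reg_mono_c hreg (min_le_left _ _)
  -- the probability of the intersection of the annulus events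
  have key : ∀ k : ℕ, s * 16 ^ k ≤ n → Pr q (AnnS s k) ≤ t ^ k := by
    intro k
    induction k with
    | zero => intro _; rw [pow_zero]; exact Pr_le_one
    | succ k ih =>
      intro hk
      have hle : s * 16 ^ k ≤ s * 16 ^ (k + 1) :=
        Nat.mul_le_mul_left s (Nat.pow_le_pow_right (by norm_num) (Nat.le_succ k))
      have h1 : Pr q (AnnS s (k + 1)) =
          Pr q (AnnS s k) * Pr q (Ann (s * 16 ^ k) (s * 16 ^ (k + 1))) :=
        Pr_inter_of_disjoint (localOn_annS s k) (localOn_ann _ _) Finset.disjoint_sdiff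
      have h2 : Pr q (Ann (s * 16 ^ k) (s * 16 ^ (k + 1))) ≤ t := by
        have h3 : 4 * (s * 16 ^ k + 1 + 1) ≤ s * 16 ^ (k + 1) := by
          have h6 : 1 ≤ 16 ^ k := Nat.one_le_pow _ _ (by norm_num)
          have h5 : 1 ≤ s * 16 ^ k := Nat.one_le_iff_ne_zero.2 (by positivity)
          have : s * 16 ^ (k + 1) = 16 * (s * 16 ^ k) := by ring
          omega
        have h4 := armBox_reg_le hc0 hreg' h3 (by omega) hk
        have h5 : Pr q (Ann (s * 16 ^ k) (s * 16 ^ (k + 1))) ≤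
            Pr q (ArmBox 0 (s * 16 ^ k + 1) (s * 16 ^ (k + 1))) := Pr_mono (ann_subset_armBox _ _)
        linarith
      rw [h1, pow_succ]
      exact mul_le_mul (ih (hle.trans hk)) h2 Pr_nonneg (pow_nonneg ht0.le k)
  set k := Nat.log 16 (R / s) with hk
  have hRs : R / s ≠ 0 := by
    have : 0 < R / s := Nat.div_pos hsR hs
    omega
  have hk1 : s * 16 ^ k ≤ R := by
    have h1 : 16 ^ k ≤ R / s := Nat.pow_log_le_self 16 hRs
    calc s * 16 ^ k ≤ s * (R / s) := Nat.mul_le_mul_left s h1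
      _ ≤ R := Nat.mul_div_le R s
  have hk2 : R < s * 16 ^ (k + 1) := by
    have h1 : R / s < 16 ^ (k + 1) := Nat.lt_pow_succ_log_self (by norm_num) (R / s)
    rw [mul_comm]
    exact (Nat.div_lt_iff_lt_mul hs).1 h1
  have h1 : Pr q (ArmBox 0 s R) ≤ t ^ k :=
    (Pr_mono (armBox_subset_annS hs k hk1)).trans (key k (hk1.trans hRn))
  have hs0 : (0 : ℝ) < s := by exact_mod_cast hs
  have hR0 : (0 : ℝ) < R := by exact_mod_cast (by omega : 0 < R)
  have hx0 : 0 < (s : ℝ) / R := by positivity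
  have hx1 : (s : ℝ) / R ≤ 1 := by
    rw [div_le_one hR0]
    exact_mod_cast hsR
  have hx2 : ((16 : ℝ) ^ (k + 1))⁻¹ ≤ (s : ℝ) / R := by
    rw [inv_eq_one_div, div_le_div_iff₀ (by positivity) hR0, one_mul]
    exact_mod_cast hk2.le
  have h2 : t ^ (k + 1) ≤ ((s : ℝ) / R) ^ a0 := by
    have h3 : (((16 : ℝ) ^ (k + 1))⁻¹) ^ a0 = t ^ (k + 1) := by
      rw [Real.inv_rpow (by positivity), ← Real.rpow_natCast (16 : ℝ) (k + 1),
        ← Real.rpow_mul (by norm_num), mul_comm, Real.rpow_mul (by norm_num), Real.rpow_natCast,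
        ← inv_pow]
      congr 1
      rw [Real.rpow_def_of_pos (by norm_num)]
      have : Real.log 16 * a0 = - Real.log t := by
        rw [ha0]; field_simp
      rw [this, Real.exp_neg, Real.exp_log ht0, inv_inv]
    rw [← h3]
    exact Real.rpow_le_rpow (by positivity) hx2 ha0p.le
  have h3 : ((s : ℝ) / R) ^ a0 ≤ ((s : ℝ) / R) ^ (min a0 (1 / 4)) :=
    Real.rpow_le_rpow_of_exponent_ge hx0 hx1 (min_le_left _ _)
  calc Pr q (ArmBox 0 s R) ≤ t ^ k := h1
    _ = 1 / t * t ^ (k + 1) := by rw [pow_succ]; field_simp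
    _ ≤ _ := mul_le_mul_of_nonneg_left (h2.trans h3) (by positivity)

end Pool.Agent.H31.EX
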