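import Pool.Agent.H31.EX.ArmReg
import Pool.Agent.H89.Perc.WindExcl

/-!
# The winding event is not degenerate in the box-crossing regime
-/

open MeasureTheory ProbabilityTheory unitInterval

namespace Pool.Agent.H31.EX

open Pool.Agent.H89.Perc Pool.Agent.H61.NC

/-- Reduction modulo `N`. -/
def modE (N : ℕ) (e : Edge) : Edge := (e.1 % N, e.2.1 % N, e.2.2)

lemma mod_eq {N : ℕ} {x y a b : ℤ} (hab : b - a < N) (hx : a ≤ x ∧ x ≤ b)
    (hy : a ≤ y ∧ y ≤ b) (h : x % N = y % N) : x = y := by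
  have hd : (N : ℤ) ∣ x - y := Int.ModEq.dvd (Int.ModEq.symm h)
  have : x - y = 0 := by
    apply Int.eq_zero_of_abs_lt_dvd hd
    rw [abs_lt]
    omega
  omega

lemma modE_injOn {N : ℕ} {a b c d : ℤ} (hab : b - a < N) (hcd : d - c < N) :
    Set.InjOn (modE N) (eRect a b c d : Set Edge) := by
  rintro ⟨x, y, t⟩ h1 ⟨x', y', t'⟩ h2 h
  rw [Finset.mem_coe, mem_eRect] at h1 h2
  simp only [src, rect, Set.mem_ofPred_eq] at h1 h2
  simp only [modE, Prod.mk.injEq] at h
  obtain ⟨h3, h4, h5⟩ := h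
  rw [mod_eq hab ⟨h1.1, h1.2.1⟩ ⟨h2.1, h2.2.1⟩ h3,
    mod_eq hcd ⟨h1.2.2.1, h1.2.2.2⟩ ⟨h2.2.2.1, h2.2.2.2⟩ h4, h5]

lemma modEc_injOn {N : ℕ} {a b c d : ℤ} (hab : b - a < N) (hcd : d - c < N) :
    Set.InjOn (fun e => modE N (crossed e)) (eRect a b c d : Set Edge) := by
  rintro ⟨x, y, t⟩ h1 ⟨x', y', t'⟩ h2 h
  rw [Finset.mem_coe, mem_eRect] at h1 h2
  simp only [src, rect, Set.mem_ofPred_eq] at h1 h2
  cases t <;> cases t'
  · simp only [modE, crossed, Prod.mk.injEq, Bool.false_eq_true, if_false] at h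
    have e1 := mod_eq (a := a + 1) (b := b + 1) (by omega) (by omega) (by omega) h.1
    have e2 := mod_eq hcd ⟨h1.2.2.1, h1.2.2.2⟩ ⟨h2.2.2.1, h2.2.2.2⟩ h.2.1
    simp only [Prod.mk.injEq, and_true]
    omega
  · simp [modE, crossed] at h
  · simp [modE, crossed] at h
  · simp only [modE, crossed, Prod.mk.injEq, if_true] at h
    have e1 := mod_eq hab ⟨h1.1, h1.2.1⟩ ⟨h2.1, h2.2.1⟩ h.1
    have e2 := mod_eq (a := c + 1) (b := d + 1) (by omega) (by omega) (by omega) h.2.1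
    simp only [Prod.mk.injEq, and_true]
    omega

lemma Pr_per {q : I} {N : ℕ} {a b c d : ℤ} (hab : b - a < N) (hcd : d - c < N) {A : Set Config}
    (hA : LocalOn (eRect a b c d) A) : Pr q {ω | per N ω ∈ A} = Pr q A :=
  Pr_comp hA (modE_injOn hab hcd)

lemma Pr_dual_per {q : I} {N : ℕ} {a b c d : ℤ} (hab : b - a < N) (hcd : d - c < N)
    {A : Set Config} (hA : LocalOn (eRect a b c d) A) :
    Pr q {ω | dual (per N ω) ∈ A} = Pr (σ q) A :=
  Pr_comp_not hA (modEc_injOn hab hcd)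

lemma localOn_per {N : ℕ} {s : Finset Edge} {A : Set Config} (hA : LocalOn s A) :
    LocalOn (s.image (modE N)) {ω | per N ω ∈ A} := by
  intro ω ω' h h'
  exact hA _ _ (fun e he => h _ (Finset.mem_image_of_mem _ he)) h'

lemma incr_per {N : ℕ} {A : Set Config} (hA : Incr A) : Incr {ω | per N ω ∈ A} := by
  intro ω ω' h h'
  exact hA _ _ (fun e he => h _ he) h'

lemma localOn_dual_per {N : ℕ} {s : Finset Edge} {A : Set Config} (hA : LocalOn s A) :
    LocalOn (s.image (fun e => modE N (crossed e))) {ω | dual (per N ω) ∈ A} := by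
  intro ω ω' h h'
  refine hA _ _ (fun e he => ?_) h'
  have := h _ (Finset.mem_image_of_mem (fun e => modE N (crossed e)) he)
  change (!ω (modE N (crossed e))) = (!ω' (modE N (crossed e)))
  rw [this]

lemma decr_dual_per {N : ℕ} {A : Set Config} (hA : Incr A) :
    Incr {ω | dual (per N ω) ∈ A}ᶜ := by
  intro ω ω' h hn hA'
  apply hn
  refine hA _ _ (fun e he => ?_) hA'
  change (!ω' (modE N (crossed e))) = true at he
  change (!ω (modE N (crossed e))) = true
  rw [Bool.not_eq_true'] at he ⊢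
  by_contra hc
  rw [Bool.not_eq_false] at hc
  rw [h _ hc] at he
  exact absurd he (by decide)

lemma pow4_le {x a b c d : ℝ} (hx : 0 ≤ x) (ha : x ≤ a) (hb : x ≤ b) (hc : x ≤ c)
    (hd : x ≤ d) : x ^ 4 ≤ (a * b) * (c * d) := by
  have h1 : x * x ≤ a * b := mul_le_mul ha hb hx (hx.trans ha)
  have h2 : x * x ≤ c * d := mul_le_mul hc hd hx (hx.trans hc)
  calc x ^ 4 = (x * x) * (x * x) := by ring
    _ ≤ (a * b) * (c * d) := mul_le_mul h1 h2 (mul_nonneg hx hx) ((mul_nonneg hx hx).trans h1)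

lemma fkg4 {q : I} {s1 s2 s3 s4 : Finset Edge} {A B C D : Set Config}
    (lA : LocalOn s1 A) (lB : LocalOn s2 B) (lC : LocalOn s3 C) (lD : LocalOn s4 D)
    (iA : Incr A) (iB : Incr B) (iC : Incr C) (iD : Incr D) :
    (Pr q A * Pr q B) * (Pr q C * Pr q D) ≤ Pr q ((A ∩ B) ∩ (C ∩ D)) := by
  classical
  have h1 := fkg (p := q) lA lB iA iB
  have h2 := fkg (p := q) lC lD iC iD
  have h3 := fkg (p := q) (lA.inter' lB) (lC.inter' lD) (iA.inter iB) (iC.inter iD)
  calc (Pr q A * Pr q B) * (Pr q C * Pr q D)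
      ≤ Pr q (A ∩ B) * Pr q (C ∩ D) :=
        mul_le_mul h1 h2 (mul_nonneg Pr_nonneg Pr_nonneg) Pr_nonneg
    _ ≤ _ := h3

lemma decr_inter {A B : Set Config} (iA : Incr Aᶜ) (iB : Incr Bᶜ) :
    Incr (A ∩ B)ᶜ := by
  rw [Set.compl_inter]
  exact iA.union iB

lemma fkg4_decr {q : I} {s1 s2 s3 s4 : Finset Edge} {A B C D : Set Config}
    (lA : LocalOn s1 A) (lB : LocalOn s2 B) (lC : LocalOn s3 C) (lD : LocalOn s4 D)
    (iA : Incr Aᶜ) (iB : Incr Bᶜ) (iC : Incr Cᶜ) (iD : Incr Dᶜ) :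
    (Pr q A * Pr q B) * (Pr q C * Pr q D) ≤ Pr q ((A ∩ B) ∩ (C ∩ D)) := by
  classical
  have h1 := fkg_decr (p := q) lA lB iA iB
  have h2 := fkg_decr (p := q) lC lD iC iD
  have h3 := fkg_decr (p := q) (lA.inter' lB) (lC.inter' lD) (decr_inter iA iB)
    (decr_inter iC iD)
  calc (Pr q A * Pr q B) * (Pr q C * Pr q D)
      ≤ Pr q (A ∩ B) * Pr q (C ∩ D) :=
        mul_le_mul h1 h2 (mul_nonneg Pr_nonneg Pr_nonneg) Pr_nonneg
    _ ≤ _ := h3

/-- Four crossings of a configuration with horizontal period `N` make a horizontal winding. -/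
lemma wind_of_crossings {N h m : ℤ} {η : Config} (hper : ∀ e, η (shiftE (N, 0) e) = η e)
    (hm : 0 ≤ m) (hh : 0 ≤ h) (hhN : h ≤ N)
    (h1 : HCross η 0 (h + m) 0 m) (h2 : HCross η h (N + m) 0 m)
    (h3 : VCross η h (h + m) 0 m) (h4 : VCross η 0 m 0 m) :
    ∃ w : Vert, Conn η Set.univ w (w.1 + N, w.2) := by
  obtain ⟨u1, v1, hu1, hv1, c1⟩ := h1
  obtain ⟨u2, v2, hu2, hv2, c2⟩ := h2
  obtain ⟨a1, b1, ha1, hb1, d1⟩ := h3
  obtain ⟨a2, b2, ha2, hb2, d2⟩ := h4
  have key : ∀ {x x' y y' : ℤ} {u v a b : Vert}, Conn η (rect x x' 0 m) u v → u.1 = x →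
      v.1 = x' → x ≤ y → y ≤ y' → y' ≤ x' → Conn η (rect y y' 0 m) a b → a.2 = 0 → b.2 = m →
      Conn η Set.univ a u := by
    intro x x' y y' u v a b huv hu hv hxy hyy hyx hab ha hb
    obtain ⟨u', v', hu', hv', e1, e2, -⟩ := huv.cross_x (a := y) (b := y') (by omega) (by omega) hyy
    have e1' : Conn η (rect y y' 0 m) u' v' := by
      refine e1.mono_set ?_
      rintro z ⟨⟨_, _, hz3, hz4⟩, hz5, hz6⟩
      exact ⟨hz5, hz6, hz3, hz4⟩
    obtain ⟨w, w1, w2⟩ := cross e1' hu' hv' hab ha hb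
    have f1 := w2.mono_set (Set.subset_univ _)
    have f2 := w1.mono_set (Set.subset_univ _)
    have f3 := e2.mono_set (Set.subset_univ _)
    exact (f1.trans f2.symm).trans f3.symm
  -- the translate of the last vertical crossing
  have d2' : Conn η (rect N (N + m) 0 m) (a2.1 + N, a2.2) (b2.1 + N, b2.2) := by
    have : (fun e => η (shiftE (N, 0) e)) = η := funext hper
    rw [← this, conn_shift] at d2
    have e : {w : Vert | (w.1 - ((N, 0) : Vert).1, w.2 - ((N, 0) : Vert).2) ∈ rect 0 m 0 m} =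
        rect N (N + m) 0 m := by
      ext w
      simp only [rect, Set.mem_ofPred_eq]
      omega
    rw [e] at d2
    simpa using d2
  have k1 := key c1 hu1 hv1 le_rfl hm (by omega) d2 ha2 hb2
  have k2 := key c1 hu1 hv1 hh (by omega) (by omega) d1 ha1 hb1
  have k3 := key c2 hu2 hv2 le_rfl (by omega) (by omega) d1 ha1 hb1
  have k4 := key c2 hu2 hv2 hhN (by omega) le_rfl d2' (by simpa using ha2) (by simpa using hb2)
  exact ⟨a2, ((k1.trans k2.symm).trans k3).trans k4.symm⟩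

/-- Four crossings of a configuration with vertical period `N` make a vertical winding. -/
lemma wind_of_crossings' {N h m : ℤ} {η : Config} (hper : ∀ e, η (shiftE (0, N) e) = η e)
    (hm : 0 ≤ m) (hh : 0 ≤ h) (hhN : h ≤ N)
    (h1 : VCross η 0 m 0 (h + m)) (h2 : VCross η 0 m h (N + m))
    (h3 : HCross η 0 m h (h + m)) (h4 : HCross η 0 m 0 m) :
    ∃ w : Vert, Conn η Set.univ w (w.1, w.2 + N) := by
  obtain ⟨u1, v1, hu1, hv1, c1⟩ := h1
  obtain ⟨u2, v2, hu2, hv2, c2⟩ := h2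
  obtain ⟨a1, b1, ha1, hb1, d1⟩ := h3
  obtain ⟨a2, b2, ha2, hb2, d2⟩ := h4
  have key : ∀ {x x' y y' : ℤ} {u v a b : Vert}, Conn η (rect 0 m x x') u v → u.2 = x →
      v.2 = x' → x ≤ y → y ≤ y' → y' ≤ x' → Conn η (rect 0 m y y') a b → a.1 = 0 → b.1 = m →
      Conn η Set.univ a u := by
    intro x x' y y' u v a b huv hu hv hxy hyy hyx hab ha hb
    obtain ⟨u', v', hu', hv', e1, e2, -⟩ := huv.cross_y (a := y) (b := y') (by omega) (by omega) hyy
    have e1' : Conn η (rect 0 m y y') u' v' := by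
      refine e1.mono_set ?_
      rintro z ⟨⟨hz3, hz4, _, _⟩, hz5, hz6⟩
      exact ⟨hz3, hz4, hz5, hz6⟩
    obtain ⟨w, w1, w2⟩ := cross hab ha hb e1' hu' hv'
    have f1 := w1.mono_set (Set.subset_univ _)
    have f2 := w2.mono_set (Set.subset_univ _)
    have f3 := e2.mono_set (Set.subset_univ _)
    exact (f1.trans f2.symm).trans f3.symm
  have d2' : Conn η (rect 0 m N (N + m)) (a2.1, a2.2 + N) (b2.1, b2.2 + N) := by
    have : (fun e => η (shiftE (0, N) e)) = η := funext hper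
    rw [← this, conn_shift] at d2
    have e : {w : Vert | (w.1 - ((0, N) : Vert).1, w.2 - ((0, N) : Vert).2) ∈ rect 0 m 0 m} =
        rect 0 m N (N + m) := by
      ext w
      simp only [rect, Set.mem_ofPred_eq]
      omega
    rw [e] at d2
    simpa using d2
  have k1 := key c1 hu1 hv1 le_rfl hm (by omega) d2 ha2 hb2
  have k2 := key c1 hu1 hv1 hh (by omega) (by omega) d1 ha1 hb1
  have k3 := key c2 hu2 hv2 le_rfl (by omega) (by omega) d1 ha1 hb1
  have k4 := key c2 hu2 hv2 hhN (by omega) le_rfl d2' (by simpa using ha2) (by simpa using hb2)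
  exact ⟨a2, ((k1.trans k2.symm).trans k3).trans k4.symm⟩

lemma per_shift (N : ℕ) (ω : Config) (i j : ℤ) (e : Edge) :
    per N ω (shiftE (i * N, j * N) e) = per N ω e := by
  simp only [per, shiftE]
  congr 2
  · exact Int.add_mul_emod_self_right _ _ _
  · congr 1
    exact Int.add_mul_emod_self_right _ _ _

/-- Winding has probability bounded below in the box-crossing regime. -/
theorem wind_reg_lower {c : ℝ} (hc : 0 < c) {N : ℕ} {q : I} (h : RSWreg c N q) (hN : 4 ≤ N) :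
    c ^ 4 ≤ Pr q (Wind N) := by
  obtain ⟨m, hm⟩ : ∃ m : ℕ, N / 2 = m + 1 := ⟨N / 2 - 1, by omega⟩
  have hm1 : 1 ≤ m := by omega
  have hmN : m ≤ N := by omega
  set k : ℤ := (m : ℤ) + 1 with hk
  have p1 : c ≤ Pr q {ω | per N ω ∈ {ω | HCross ω 0 (k + m) 0 m}} := by
    rw [Pr_per (a := 0) (b := k + m) (c := 0) (d := m) (by omega) (by omega) (localOn_hcross _ _ _ _)]
    exact reg_hcross h hm1 hmN (by omega) (by omega) (by omega)
  have p2 : c ≤ Pr q {ω | per N ω ∈ {ω | HCross ω k (N + m) 0 m}} := by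
    rw [Pr_per (a := k) (b := N + m) (c := 0) (d := m) (by omega) (by omega) (localOn_hcross _ _ _ _)]
    exact reg_hcross h hm1 hmN (by omega) (by omega) (by omega)
  have p3 : c ≤ Pr q {ω | per N ω ∈ {ω | VCross ω k (k + m) 0 m}} := by
    rw [Pr_per (a := k) (b := k + m) (c := 0) (d := m) (by omega) (by omega) (localOn_vcross _ _ _ _)]
    exact reg_vcross h hm1 hmN (by omega) (by omega) (by omega)
  have p4 : c ≤ Pr q {ω | per N ω ∈ {ω | VCross ω 0 m 0 m}} := by
    rw [Pr_per (a := 0) (b := m) (c := 0) (d := m) (by omega) (by omega) (localOn_vcross _ _ _ _)]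
    exact reg_vcross h hm1 hmN (by omega) (by omega) (by omega)
  have key := fkg4 (q := q)
    (localOn_per (N := N) (localOn_hcross 0 (k + m) 0 m))
    (localOn_per (N := N) (localOn_hcross k (N + m) 0 m))
    (localOn_per (N := N) (localOn_vcross k (k + m) 0 m))
    (localOn_per (N := N) (localOn_vcross 0 m 0 m))
    (incr_per (incr_hcross _ _ _ _)) (incr_per (incr_hcross _ _ _ _))
    (incr_per (incr_vcross _ _ _ _)) (incr_per (incr_vcross _ _ _ _))
  refine (pow4_le hc.le p1 p2 p3 p4).trans (key.trans (Pr_mono ?_))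
  rintro ω ⟨⟨h1, h2⟩, ⟨h3, h4⟩⟩
  have hper : ∀ e, per N ω (shiftE ((N : ℤ), 0) e) = per N ω e := by
    intro e
    have := per_shift N ω 1 0 e
    simpa using this
  obtain ⟨w, hw⟩ := wind_of_crossings hper (by omega) (by omega) (by omega) h1 h2 h3 h4
  refine ⟨w, 1, 0, one_ne_zero, ?_⟩
  simpa using hw

/-- Not winding has probability bounded below in the box-crossing regime. -/
theorem wind_reg_upper {c : ℝ} (hc : 0 < c) {N : ℕ} {q : I} (h : RSWreg c N q) (hN : 4 ≤ N) :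
    c ^ 4 ≤ 1 - Pr q (Wind N) := by
  obtain ⟨m, hm⟩ : ∃ m : ℕ, N / 2 = m + 1 := ⟨N / 2 - 1, by omega⟩
  have hm1 : 1 ≤ m := by omega
  have hmN : m ≤ N := by omega
  have h' := reg_symm h
  set k : ℤ := (m : ℤ) + 1 with hk
  have p1 : c ≤ Pr q {ω | dual (per N ω) ∈ {ω | VCross ω 0 m 0 (k + m)}} := by
    rw [Pr_dual_per (a := 0) (b := m) (c := 0) (d := k + m) (by omega) (by omega)
      (localOn_vcross _ _ _ _)]
    exact reg_vcross h' hm1 hmN (by omega) (by omega) (by omega)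
  have p2 : c ≤ Pr q {ω | dual (per N ω) ∈ {ω | VCross ω 0 m k (N + m)}} := by
    rw [Pr_dual_per (a := 0) (b := m) (c := k) (d := N + m) (by omega) (by omega)
      (localOn_vcross _ _ _ _)]
    exact reg_vcross h' hm1 hmN (by omega) (by omega) (by omega)
  have p3 : c ≤ Pr q {ω | dual (per N ω) ∈ {ω | HCross ω 0 m k (k + m)}} := by
    rw [Pr_dual_per (a := 0) (b := m) (c := k) (d := k + m) (by omega) (by omega)
      (localOn_hcross _ _ _ _)]
    exact reg_hcross h' hm1 hmN (by omega) (by omega) (by omega)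
  have p4 : c ≤ Pr q {ω | dual (per N ω) ∈ {ω | HCross ω 0 m 0 m}} := by
    rw [Pr_dual_per (a := 0) (b := m) (c := 0) (d := m) (by omega) (by omega)
      (localOn_hcross _ _ _ _)]
    exact reg_hcross h' hm1 hmN (by omega) (by omega) (by omega)
  have key := fkg4_decr (q := q)
    (localOn_dual_per (N := N) (localOn_vcross 0 m 0 (k + m)))
    (localOn_dual_per (N := N) (localOn_vcross 0 m k (N + m)))
    (localOn_dual_per (N := N) (localOn_hcross 0 m k (k + m)))
    (localOn_dual_per (N := N) (localOn_hcross 0 m 0 m))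
    (decr_dual_per (incr_vcross _ _ _ _)) (decr_dual_per (incr_vcross _ _ _ _))
    (decr_dual_per (incr_hcross _ _ _ _)) (decr_dual_per (incr_hcross _ _ _ _))
  rw [← Pr_compl (localOn_wind (N := N) (by omega))]
  refine (pow4_le hc.le p1 p2 p3 p4).trans (key.trans (Pr_mono ?_))
  rintro ω ⟨⟨h1, h2⟩, ⟨h3, h4⟩⟩ hW
  have hper : ∀ e, dual (per N ω) (shiftE (0, (N : ℤ)) e) = dual (per N ω) e := by
    rintro ⟨x, y, b⟩
    have h5 := per_shift N ω 0 1 (crossed (x, y, b))
    simp only [zero_mul, one_mul] at h5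
    simp only [dual]
    rw [← h5]
    congr 2
    cases b <;> simp [shiftE, crossed]
    ring
  obtain ⟨w, hw⟩ := wind_of_crossings' hper (by omega) (by omega) (by omega) h1 h2 h3 h4
  exact wind_exclusion (by omega) hW w hw

end Pool.Agent.H31.EX
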