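import Pool.Agent.H31.EX.BlockReveal
import Pool.Agent.H31.EX.WindReg

/-!
# Lower bound for the probability that a block is pivotal for the winding event
-/

open MeasureTheory ProbabilityTheory unitInterval

namespace Pool.Agent.H31.EX

open Pool.Agent.H89.Perc Pool.Agent.H61.NC
open Pool.Agent.H85.Kes (BPiv setB)

lemma blk_subset_tEdges {N r : ℕ} (h : 4 * r ≤ N) (hr : 1 ≤ r) : blk N r ⊆ tEdges N := by
  intro e he
  rw [blk, mem_eRect] at he
  rw [mem_tEdges]
  simp only [src, rect, Set.mem_ofPred_eq, mid] at he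
  omega

lemma fill_eq_setB (s : Finset Edge) (b : Bool) (ω : Config) : fill s b ω = setB s b ω := by
  classical
  funext e
  by_cases h : e ∈ s <;> simp [fill, setB, h]

lemma blockPiv_eq (N r : ℕ) : BlockPiv N r = BPiv (blk N r) (Wind N) := by
  ext ω
  simp only [BlockPiv, BPiv, fill_eq_setB]

/-- All translates of a block have the same probability of being pivotal. -/
theorem Pr_bpiv_translate {N : ℕ} (hN : 1 ≤ N) (q : I) {B : Finset Edge} (hB : B ⊆ tEdges N)
    (z : Vert) : Pr q (BPiv (B.image (torusSym_tau N z)) (Wind N)) = Pr q (BPiv B (Wind N)) := by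
  rw [← Pr_comp (Pool.Agent.H85.Kes.localOn_BPiv (localOn_wind hN) B) (torusSym_tau_injOn N z)]
  congr 1
  ext ω
  have key : ∀ b : Bool, setB (B.image (torusSym_tau N z)) b ω ∈ Wind N ↔
      setB B b (fun e => ω (torusSym_tau N z e)) ∈ Wind N := by
    intro b
    rw [← torusSym_wind N z (setB (B.image (torusSym_tau N z)) b ω)]
    have key2 : ∀ f ∈ tEdges N, setB (B.image (torusSym_tau N z)) b ω (torusSym_tau N z f) =
        setB B b (fun e => ω (torusSym_tau N z e)) f := by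
      intro f hf
      have h1 : torusSym_tau N z f ∈ B.image (torusSym_tau N z) ↔ f ∈ B := by
        rw [Finset.mem_image]
        constructor
        · rintro ⟨g, hg, hgf⟩
          rwa [← torusSym_tau_injOn N z (hB hg) hf hgf]
        · intro h; exact ⟨f, h, rfl⟩
      unfold setB
      by_cases hfB : f ∈ B
      · rw [if_pos (h1.2 hfB), if_pos hfB]
      · rw [if_neg (fun h => hfB (h1.1 h)), if_neg hfB]
    exact ⟨fun h1 => localOn_wind hN _ _ key2 h1,
      fun h1 => localOn_wind hN _ _ (fun f hf => (key2 f hf).symm) h1⟩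
  simp only [BPiv, Set.mem_ofPred_eq, key]

lemma bpiv_mono {B B' : Finset Edge} (h : B ⊆ B') {A : Set Config} (hA : Incr A) :
    BPiv B A ⊆ BPiv B' A := by
  rintro ω ⟨h1, h2⟩
  refine ⟨hA _ _ (fun e he => ?_) h1, fun h3 => h2 (hA _ _ (fun e he => ?_) h3)⟩
  · unfold setB at he ⊢
    by_cases h4 : e ∈ B'
    · rw [if_pos h4]
    · rw [if_neg h4]
      rwa [if_neg (fun h5 => h4 (h h5))] at he
  · unfold setB at he ⊢
    by_cases h4 : e ∈ B'
    · rw [if_pos h4] at he
      exact absurd he (by decide)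
    · rw [if_neg (fun h5 => h4 (h h5))]
      rwa [if_neg h4] at he

/-- The blocks of the tiling have smaller influence than the block in the middle. -/
theorem Pr_tBlk_le {N r : ℕ} (hr : 1 ≤ r) (h4 : 4 * r ≤ N) (q : I) (b : ℤ × ℤ) :
    Pr q (BPiv (tBlk N r b) (Wind N)) ≤ Pr q (BlockPiv N r) := by
  classical
  have hN : 1 ≤ N := by omega
  set z : Vert := (b.1 * (2 * r + 1) + r - mid N, b.2 * (2 * r + 1) + r - mid N) with hz
  rw [blockPiv_eq, ← Pr_bpiv_translate hN q (blk_subset_tEdges h4 hr) z]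
  refine Pr_mono (bpiv_mono ?_ (incr_wind N))
  intro e he
  rw [mem_tBlk, mem_tEdges] at he
  obtain ⟨⟨h1, h2⟩, h3, h5⟩ := he
  rw [Finset.mem_image]
  refine ⟨(e.1 - z.1, e.2.1 - z.2, e.2.2), ?_, ?_⟩
  · rw [blk, mem_eRect]
    simp only [src, rect, Set.mem_ofPred_eq, hz]
    omega
  · unfold torusSym_tau
    simp only [sub_add_cancel]
    rw [Int.emod_eq_of_lt h1.1 h1.2, Int.emod_eq_of_lt h2.1 h2.2]

/-! ### The sum over the blocks -/

lemma sum_rpow_le {b : ℝ} (hb0 : 0 ≤ b) (hb : b ≤ 1 / 2) (n : ℕ) :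
    ∑ d ∈ Finset.range n, ((d : ℝ) + 1) ^ (-b) ≤ 2 * (n : ℝ) ^ (1 - b) := by
  induction n with
  | zero =>
    simp only [Finset.range_zero, Finset.sum_empty, Nat.cast_zero]
    rw [Real.zero_rpow (by linarith), mul_zero]
  | succ n ih =>
    rw [Finset.sum_range_succ]
    have hn : (0 : ℝ) < (n : ℝ) + 1 := by positivity
    have h1 : (n : ℝ) ^ (1 - b) ≤ ((n : ℝ) + 1) ^ (1 - b) * (1 - (1 - b) / (n + 1)) := by
      have h2 : (n : ℝ) = (n + 1) * (1 + -(1 / ((n : ℝ) + 1))) := by field_simp; ring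
      have h3 : (0 : ℝ) ≤ 1 + -(1 / ((n : ℝ) + 1)) := by
        have : 1 / ((n : ℝ) + 1) ≤ 1 := by
          rw [div_le_one hn]; linarith [(Nat.cast_nonneg n : (0 : ℝ) ≤ n)]
        linarith
      have h4 : (1 + -(1 / ((n : ℝ) + 1))) ^ (1 - b) ≤ 1 + (1 - b) * -(1 / ((n : ℝ) + 1)) :=
        rpow_one_add_le_one_add_mul_self (by linarith) (by linarith) (by linarith)
      calc (n : ℝ) ^ (1 - b) = ((n + 1) * (1 + -(1 / ((n : ℝ) + 1)))) ^ (1 - b) := by rw [← h2]
        _ = ((n : ℝ) + 1) ^ (1 - b) * (1 + -(1 / ((n : ℝ) + 1))) ^ (1 - b) :=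
            Real.mul_rpow hn.le h3
        _ ≤ ((n : ℝ) + 1) ^ (1 - b) * (1 + (1 - b) * -(1 / ((n : ℝ) + 1))) :=
            mul_le_mul_of_nonneg_left h4 (by positivity)
        _ = _ := by ring
    have h5 : ((n : ℝ) + 1) ^ (-b) = ((n : ℝ) + 1) ^ (1 - b) / (n + 1) := by
      rw [show (-b : ℝ) = (1 - b) - 1 by ring, Real.rpow_sub_one hn.ne']
    have h6 : 0 ≤ ((n : ℝ) + 1) ^ (1 - b) / (n + 1) := by positivity
    rw [h5]
    push_cast
    have h7 : ((n : ℝ) + 1) ^ (1 - b) * (1 - (1 - b) / (n + 1)) =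
        ((n : ℝ) + 1) ^ (1 - b) - (1 - b) * (((n : ℝ) + 1) ^ (1 - b) / (n + 1)) := by
      field_simp
    rw [h7] at h1
    nlinarith [mul_nonneg (by linarith : (0 : ℝ) ≤ 1 / 2 - b) h6]

/-- Bound for the sum over the blocks when the summand is controlled by the distance to the
boundary. -/
lemma sum_blocks_le {K : ℕ} {g : ℤ × ℤ → ℝ} {G : ℕ → ℝ} (hG : ∀ d, 0 ≤ G d)
    (h : ∀ b ∈ Finset.Ico (0 : ℤ) K ×ˢ Finset.Ico (0 : ℤ) K, ∀ d : ℕ, (d : ℤ) ≤ b.1 →
      (d : ℤ) ≤ K - 1 - b.1 → (d : ℤ) ≤ b.2 → (d : ℤ) ≤ K - 1 - b.2 → g b ≤ G d) :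
    ∑ b ∈ Finset.Ico (0 : ℤ) K ×ˢ Finset.Ico (0 : ℤ) K, g b ≤
      4 * K * ∑ d ∈ Finset.range K, G d := by
  have e0 : ∀ f : ℤ → ℝ, ∑ x ∈ Finset.Ico (0 : ℤ) K, f x = ∑ d ∈ Finset.range K, f d := by
    intro f
    have : Finset.Ico (0 : ℤ) K = (Finset.range K).map ⟨((↑) : ℕ → ℤ), Nat.cast_injective⟩ := by
      ext x
      simp only [Finset.mem_Ico, Finset.mem_map, Finset.mem_range, Function.Embedding.coeFn_mk]
      constructor
      · rintro ⟨h1, h2⟩
        exact ⟨x.toNat, by omega, by omega⟩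
      · rintro ⟨y, hy, rfl⟩
        omega
    rw [this, Finset.sum_map]
    rfl
  have h1 : ∀ b ∈ Finset.Ico (0 : ℤ) K ×ˢ Finset.Ico (0 : ℤ) K, g b ≤
      G b.1.toNat + G (K - 1 - b.1).toNat + (G b.2.toNat + G (K - 1 - b.2).toNat) := by
    intro b hb
    have hb' := hb
    rw [Finset.mem_product, Finset.mem_Ico, Finset.mem_Ico] at hb'
    have n1 := hG b.1.toNat
    have n2 := hG (K - 1 - b.1).toNat
    have n3 := hG b.2.toNat
    have n4 := hG (K - 1 - b.2).toNat
    rcases le_total b.1 (K - 1 - b.1) with c1 | c1 <;>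
    rcases le_total b.2 (K - 1 - b.2) with c2 | c2
    · rcases le_total b.1 b.2 with c3 | c3
      · have := h b hb b.1.toNat (by omega) (by omega) (by omega) (by omega)
        linarith
      · have := h b hb b.2.toNat (by omega) (by omega) (by omega) (by omega)
        linarith
    · rcases le_total b.1 (K - 1 - b.2) with c3 | c3
      · have := h b hb b.1.toNat (by omega) (by omega) (by omega) (by omega)
        linarith
      · have := h b hb (K - 1 - b.2).toNat (by omega) (by omega) (by omega) (by omega)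
        linarith
    · rcases le_total (K - 1 - b.1) b.2 with c3 | c3
      · have := h b hb (K - 1 - b.1).toNat (by omega) (by omega) (by omega) (by omega)
        linarith
      · have := h b hb b.2.toNat (by omega) (by omega) (by omega) (by omega)
        linarith
    · rcases le_total (K - 1 - b.1) (K - 1 - b.2) with c3 | c3
      · have := h b hb (K - 1 - b.1).toNat (by omega) (by omega) (by omega) (by omega)
        linarith
      · have := h b hb (K - 1 - b.2).toNat (by omega) (by omega) (by omega) (by omega)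
        linarith
  refine (Finset.sum_le_sum h1).trans (le_of_eq ?_)
  have e1 : ∑ x ∈ Finset.Ico (0 : ℤ) K, (G x.toNat + G (K - 1 - x).toNat) =
      2 * ∑ d ∈ Finset.range K, G d := by
    rw [e0, Finset.sum_add_distrib]
    have e2 : ∑ d ∈ Finset.range K, G ((d : ℤ)).toNat = ∑ d ∈ Finset.range K, G d :=
      Finset.sum_congr rfl fun d _ => by rw [Int.toNat_natCast]
    have e3 : ∑ d ∈ Finset.range K, G ((K : ℤ) - 1 - d).toNat = ∑ d ∈ Finset.range K, G d := by
      rw [← Finset.sum_range_reflect]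
      refine Finset.sum_congr rfl fun d hd => ?_
      rw [Finset.mem_range] at hd
      congr 1
      omega
    rw [e2, e3]
    ring
  rw [Finset.sum_product]
  simp only [Finset.sum_add_distrib, Finset.sum_const, Int.card_Ico, sub_zero, Int.toNat_natCast,
    nsmul_eq_mul] at e1 ⊢
  rw [← Finset.mul_sum, ← Finset.mul_sum]
  linear_combination (2 * (K : ℝ)) * e1

/-- The influence of a block of radius `r` on the winding event is at least
`(r / N) ^ (2 - δ)` in the box-crossing regime. -/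
theorem blockLow : BlockLow := by
  classical
  intro c hc
  obtain ⟨C, a, hC, ha, ha4, hdec⟩ := armBox_decay hc
  set b : ℝ := 2 * a with hb
  have hb0 : 0 < b := by positivity
  have hb1 : b ≤ 1 / 2 := by linarith
  set C1 : ℝ := 1 + 2 * C ^ 2 with hC1
  have hC1p : 1 ≤ C1 := by have := sq_nonneg C; linarith
  refine ⟨8 * C1 / c ^ 8, b, by positivity, hb0, ?_⟩
  intro N r q hr h4 hreg
  have hN : 2 ≤ N := by omega
  have hN4 : 4 ≤ N := by omega
  have hN1 : 1 ≤ N := by omega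
  have hNn : (1 : ℕ) ≤ N := hN1
  set P : ℝ := Pr q (BlockPiv N r) with hP
  have hP0 : 0 ≤ P := Pr_nonneg
  set K : ℕ := nB N r with hK
  obtain ⟨hK1, hK2, hK3⟩ := nB_spec (r := r) hN1
  rw [← hK] at hK1 hK2 hK3
  have hR : ∀ O C e, torusRule N O C = some e → e ∈ tEdges N ∧ e ∉ O ∧ e ∉ C := by
    intro O C e he
    obtain ⟨h1, h2, h3, _⟩ := torusRule_spec he
    exact ⟨h1, h2, h3⟩
  have hosss := block_osss_rule (β := bIdx r) (localOn_wind hN1) (incr_wind N)
    (fun e he => bIdx_mem hN1 he) hR (torus_det hN) q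
  -- the revealment
  set G : ℕ → ℝ := fun d => C1 * ((d : ℝ) + 1) ^ (-b) with hG
  have hG0 : ∀ d, 0 ≤ G d := fun d => by
    have : (0 : ℝ) ≤ ((d : ℝ) + 1) ^ (-b) := by positivity
    exact mul_nonneg (by linarith) this
  set g : ℤ × ℤ → ℝ := fun x =>
    Pr q {ω | ∃ e ∈ tBlk N r x, e ∈ queried (torusRule N) ω (tEdges N).card} with hg
  have hgG : ∀ x ∈ Finset.Ico (0 : ℤ) K ×ˢ Finset.Ico (0 : ℤ) K, ∀ d : ℕ, (d : ℤ) ≤ x.1 →
      (d : ℤ) ≤ K - 1 - x.1 → (d : ℤ) ≤ x.2 → (d : ℤ) ≤ K - 1 - x.2 → g x ≤ G d := by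
    intro x hx d d1 d2 d3 d4
    rcases Nat.eq_zero_or_pos d with h0 | hd
    · have : g x ≤ 1 := Pr_le_one
      have h5 : G d = C1 := by rw [hG, h0]; simp
      rw [h5]
      linarith
    · obtain ⟨R, hR⟩ : ∃ R : ℕ, R + r = d * (2 * r + 1) :=
        ⟨d * (2 * r + 1) - r, by
          have : r ≤ d * (2 * r + 1) := by nlinarith
          omega⟩
      have hRN : R ≤ N := by
        have h6 : (d : ℤ) * (2 * r + 1) ≤ (K - 1 - x.1) * (2 * r + 1) :=
          mul_le_mul_of_nonneg_right d2 (by positivity)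
        have h7 : 0 ≤ x.1 * (2 * (r : ℤ) + 1) := by
          have : 0 ≤ x.1 := by omega
          positivity
        have h8 : ((R : ℤ)) + r = d * (2 * r + 1) := by exact_mod_cast hR
        have h9 : ((K : ℤ) - 1 - x.1) * (2 * r + 1) = (K - 1) * (2 * r + 1) - x.1 * (2 * r + 1) := by
          ring
        omega
      have hRr : (r + 1) * d ≤ R := by
        have : (r + 1) * d + r ≤ d * (2 * r + 1) := by nlinarith
        omega
      have hRr1 : r + 1 ≤ R := by nlinarith
      have hsub := block_reveal_subset (N := N) (r := r) hN1 hd d1 d2 d3 d4 hR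
      set v : Vert := (x.1 * (2 * r + 1) + r, x.2 * (2 * r + 1) + r) with hv
      have h10 : g x ≤ Pr q (ArmBox v (r + 1) R) * Pr q {ω | dual ω ∈ ArmBox v (r + 1) R} :=
        (Pr_mono hsub).trans (fkg_mixed (localOn_armBox v (r + 1) R)
          (localOn_armBox v (r + 1) R).dual' (incr_armBox v (r + 1) R)
          (incr_armBox v (r + 1) R).dual_compl)
      rw [Pr_dual (localOn_armBox v (r + 1) R), Pr_armBox (p := q) v, Pr_armBox (p := σ q) v] at h10
      have hR0 : (0 : ℝ) < R := by exact_mod_cast (by omega : 0 < R)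
      have hd0 : (0 : ℝ) < d := by exact_mod_cast hd
      have hd1 : (1 : ℝ) ≤ d := by exact_mod_cast hd
      have hfrac : ((r + 1 : ℕ) : ℝ) / R ≤ 1 / d := by
        rw [div_le_div_iff₀ hR0 hd0, one_mul]
        exact_mod_cast hRr
      have hx1 := hdec N (r + 1) R q hreg (by omega) hRr1 hRN
      have hx2 := hdec N (r + 1) R (σ q) (reg_symm hreg) (by omega) hRr1 hRN
      have hy : C * (((r + 1 : ℕ) : ℝ) / R) ^ a ≤ C * (1 / (d : ℝ)) ^ a :=
        mul_le_mul_of_nonneg_left (Real.rpow_le_rpow (by positivity) hfrac ha.le) hC.le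
      have h11 : g x ≤ (C * (1 / (d : ℝ)) ^ a) * (C * (1 / (d : ℝ)) ^ a) :=
        h10.trans (mul_le_mul (hx1.trans hy) (hx2.trans hy) Pr_nonneg (by positivity))
      refine h11.trans ?_
      have h12 : (C * (1 / (d : ℝ)) ^ a) * (C * (1 / (d : ℝ)) ^ a) = C ^ 2 * (1 / (d : ℝ)) ^ b := by
        have : (1 / (d : ℝ)) ^ b = (1 / (d : ℝ)) ^ a * (1 / (d : ℝ)) ^ a := by
          rw [← Real.rpow_add (by positivity), hb]
          congr 1
          ring
        rw [this]; ring
      rw [h12]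
      have h13 : (1 / (d : ℝ)) ^ b ≤ 2 * ((d : ℝ) + 1) ^ (-b) := by
        have h14 : (1 / (d : ℝ)) ≤ 2 / ((d : ℝ) + 1) := by
          rw [div_le_div_iff₀ hd0 (by positivity)]
          linarith
        have h15 : (1 / (d : ℝ)) ^ b ≤ (2 / ((d : ℝ) + 1)) ^ b :=
          Real.rpow_le_rpow (by positivity) h14 hb0.le
        have h16 : (2 / ((d : ℝ) + 1)) ^ b = 2 ^ b * ((d : ℝ) + 1) ^ (-b) := by
          rw [Real.div_rpow (by norm_num) (by positivity), Real.rpow_neg (by positivity)]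
          rfl
        have h17 : (2 : ℝ) ^ b ≤ 2 := by
          calc (2 : ℝ) ^ b ≤ 2 ^ (1 : ℝ) :=
                Real.rpow_le_rpow_of_exponent_le (by norm_num) (by linarith)
            _ = 2 := by norm_num
        rw [h16] at h15
        refine h15.trans (mul_le_mul_of_nonneg_right h17 (by positivity))
      have h18 : (0 : ℝ) ≤ ((d : ℝ) + 1) ^ (-b) := by positivity
      calc C ^ 2 * (1 / (d : ℝ)) ^ b ≤ C ^ 2 * (2 * ((d : ℝ) + 1) ^ (-b)) :=
            mul_le_mul_of_nonneg_left h13 (by positivity)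
        _ = (2 * C ^ 2) * ((d : ℝ) + 1) ^ (-b) := by ring
        _ ≤ C1 * ((d : ℝ) + 1) ^ (-b) := mul_le_mul_of_nonneg_right (by linarith) h18
  have hsum := sum_blocks_le hG0 hgG
  have hsumG : ∑ d ∈ Finset.range K, G d ≤ C1 * (2 * (K : ℝ) ^ (1 - b)) := by
    rw [hG, ← Finset.mul_sum]
    exact mul_le_mul_of_nonneg_left (sum_rpow_le hb0.le hb1 K) (by linarith)
  have hK0 : (0 : ℝ) < K := by exact_mod_cast hK1
  have hKpow : (K : ℝ) * (K : ℝ) ^ (1 - b) = (K : ℝ) ^ (2 - b) := by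
    rw [show (2 - b : ℝ) = 1 + (1 - b) by ring, Real.rpow_add hK0, Real.rpow_one]
  have hfin : Pr q (Wind N) * (1 - Pr q (Wind N)) ≤ 8 * C1 * (K : ℝ) ^ (2 - b) * P := by
    have h20 : Pr q (Wind N) * (1 - Pr q (Wind N)) ≤
        ∑ x ∈ Finset.Ico (0 : ℤ) K ×ˢ Finset.Ico (0 : ℤ) K, g x * P := by
      refine hosss.trans (Finset.sum_le_sum fun x _ => ?_)
      exact mul_le_mul_of_nonneg_left (Pr_tBlk_le hr h4 q x) Pr_nonneg
    rw [← Finset.sum_mul] at h20
    refine h20.trans (mul_le_mul_of_nonneg_right ?_ hP0)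
    refine hsum.trans ?_
    calc 4 * (K : ℝ) * ∑ d ∈ Finset.range K, G d ≤ 4 * K * (C1 * (2 * (K : ℝ) ^ (1 - b))) :=
          mul_le_mul_of_nonneg_left hsumG (by positivity)
      _ = 8 * C1 * ((K : ℝ) * (K : ℝ) ^ (1 - b)) := by ring
      _ = _ := by rw [hKpow]
  have hlow : c ^ 8 ≤ Pr q (Wind N) * (1 - Pr q (Wind N)) := by
    have h21 := wind_reg_lower hc hreg hN4
    have h22 := wind_reg_upper hc hreg hN4
    calc c ^ 8 = c ^ 4 * c ^ 4 := by ring
      _ ≤ _ := mul_le_mul h21 h22 (by positivity) Pr_nonneg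
  have hr0 : (0 : ℝ) < r := by exact_mod_cast hr
  have hNr : (0 : ℝ) < N := by exact_mod_cast hN1
  have hKN : (K : ℝ) ≤ (N : ℝ) / r := by
    rw [le_div_iff₀ hr0]
    have h23 : K * (2 * r + 1) ≤ N + 2 * r := Nat.div_mul_le_self _ _
    have h24 : K * r ≤ N := by
      by_contra hlt
      push Not at hlt
      have : K * (2 * r + 1) = 2 * (K * r) + K := by ring
      nlinarith
    exact_mod_cast h24
  have hKN' : (K : ℝ) ^ (2 - b) ≤ ((N : ℝ) / r) ^ (2 - b) :=
    Real.rpow_le_rpow hK0.le hKN (by linarith)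
  have hinv : ((r : ℝ) / N) ^ (2 - b) * ((N : ℝ) / r) ^ (2 - b) = 1 := by
    rw [← Real.mul_rpow (by positivity) (by positivity)]
    have : (r : ℝ) / N * (N / r) = 1 := by field_simp
    rw [this, Real.one_rpow]
  have hx0 : 0 ≤ ((r : ℝ) / N) ^ (2 - b) := by positivity
  have hall : c ^ 8 ≤ 8 * C1 * ((N : ℝ) / r) ^ (2 - b) * P :=
    hlow.trans (hfin.trans (by gcongr))
  have hc8 : 0 < c ^ 8 := by positivity
  rw [div_mul_eq_mul_div, le_div_iff₀ hc8]
  calc ((r : ℝ) / N) ^ (2 - b) * c ^ 8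
      ≤ ((r : ℝ) / N) ^ (2 - b) * (8 * C1 * ((N : ℝ) / r) ^ (2 - b) * P) :=
        mul_le_mul_of_nonneg_left hall hx0
    _ = 8 * C1 * P * (((r : ℝ) / N) ^ (2 - b) * ((N : ℝ) / r) ^ (2 - b)) := by ring
    _ = 8 * C1 * P := by rw [hinv, mul_one]

end Pool.Agent.H31.EX
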