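import Pool.Agent.H31.EX.PowerLaw
import Pool.Agent.H85.Gamma.Main

/-!
# Exponents of bond percolation on the square lattice from the scaling relations

`L p` is a characteristic length.  From `(p - 1/2) (L p) ^ (s + o(1)) ≍ 1`,
`θ(p) ≍ π₁(L p)`, `σ(1 - p) ≍ (L p)² π₁(L p)²` and `π₁(n) = n ^ (-a + o(1))` we obtain
`β = a / s` and `γ = (2 - 2 a) / s`.
-/

open MeasureTheory ProbabilityTheory unitInterval
open scoped ENNReal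

namespace Pool.Agent.H31.EX

open Pool.Agent.H89.Perc

/-- `θ(p) = (p - 1/2) ^ (β₀ + o(1))` as `p ↓ 1/2`. -/
def HasBeta (β₀ : ℝ) : Prop :=
  ∀ ε > (0 : ℝ), ∃ δ > (0 : ℝ), ∀ p : I, (1 / 2 : ℝ) < p → (p : ℝ) < 1 / 2 + δ →
    ((p : ℝ) - 1 / 2) ^ (β₀ + ε) ≤ theta p ∧ theta p ≤ ((p : ℝ) - 1 / 2) ^ (β₀ - ε)

/-- `σ(p) = (1/2 - p) ^ (-γ₀ + o(1))` as `p ↑ 1/2`. -/
def HasGamma (γ₀ : ℝ) : Prop :=
  ∀ ε > (0 : ℝ), ∃ δ > (0 : ℝ), ∀ p : I, (p : ℝ) < 1 / 2 → 1 / 2 - δ < (p : ℝ) →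
    ENNReal.ofReal ((1 / 2 - (p : ℝ)) ^ (-γ₀ + ε)) ≤ Pool.Agent.H85.Gamma.sigma p ∧
      Pool.Agent.H85.Gamma.sigma p ≤ ENNReal.ofReal ((1 / 2 - (p : ℝ)) ^ (-γ₀ - ε))

/-- The density `1/2 + h` (or a default value). -/
noncomputable def pOf (h : ℝ) : I := Set.projIcc 0 1 zero_le_one (1 / 2 + h)

lemma pOf_val {h : ℝ} (h0 : 0 < h) (h1 : h < 1 / 2) : (pOf h : ℝ) = 1 / 2 + h := by
  unfold pOf
  rw [Set.projIcc_of_mem zero_le_one ⟨by linarith, by linarith⟩]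

lemma pOf_sub {p : I} (hp : (1 / 2 : ℝ) < p) (hp1 : (p : ℝ) < 1) : pOf ((p : ℝ) - 1 / 2) = p := by
  apply Subtype.ext
  rw [pOf_val (by linarith) (by linarith)]
  ring

/-- Transfer of a bound valid for all densities slightly above `1/2`. -/
lemma transfer {P : I → ℝ → Prop} {δ : ℝ} (hδ : 0 < δ)
    (h : ∀ p : I, (1 / 2 : ℝ) < p → (p : ℝ) < 1 / 2 + δ → P p ((p : ℝ) - 1 / 2)) :
    ∃ δ' > (0 : ℝ), ∀ x : ℝ, 0 < x → x < δ' → P (pOf x) x := by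
  refine ⟨min δ (1 / 2), lt_min hδ (by norm_num), fun x x0 x1 => ?_⟩
  have h1 : x < δ := x1.trans_le (min_le_left _ _)
  have h2 : x < 1 / 2 := x1.trans_le (min_le_right _ _)
  have h3 := pOf_val x0 h2
  have h4 := h (pOf x) (by rw [h3]; linarith) (by rw [h3]; linarith)
  rw [h3, add_sub_cancel_left] at h4
  exact h4

/-- The characteristic length is `(p - 1/2) ^ (-1/s + o(1))`. -/
theorem length_exponent {L : I → ℕ} {s : ℝ} (hs : 0 < s)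
    (hup : ∀ ε > (0 : ℝ), ∃ C > (0 : ℝ), ∃ δ > (0 : ℝ), ∀ p : I, (1 / 2 : ℝ) < p →
      (p : ℝ) < 1 / 2 + δ → ((p : ℝ) - 1 / 2) * (L p : ℝ) ^ (s - ε) ≤ C)
    (hlow : ∀ ε > (0 : ℝ), ∃ c > (0 : ℝ), ∃ δ > (0 : ℝ), ∀ p : I, (1 / 2 : ℝ) < p →
      (p : ℝ) < 1 / 2 + δ → c ≤ ((p : ℝ) - 1 / 2) * (L p : ℝ) ^ (s + ε)) :
    PL (fun x => (L (pOf x) : ℝ)) (-(1 / s)) := by
  refine PL.of_window (L := fun x => L (pOf x)) hs ?_ ?_
  · intro ε hε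
    obtain ⟨C, hC, δ, hδ, h⟩ := hup ε hε
    obtain ⟨δ', hδ', h'⟩ := transfer (P := fun p x => x * (L p : ℝ) ^ (s - ε) ≤ C) hδ h
    exact ⟨C, hC, δ', hδ', h'⟩
  · intro ε hε
    obtain ⟨C, hC, δ, hδ, h⟩ := hlow ε hε
    obtain ⟨δ', hδ', h'⟩ := transfer (P := fun p x => C ≤ x * (L p : ℝ) ^ (s + ε)) hδ h
    exact ⟨C, hC, δ', hδ', h'⟩

/-- The characteristic length from the four-arm probability `f`: if `(p - 1/2) L² f(L) ≍ 1` and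
`f(n) = n ^ (-a + o(1))`, then `L = (p - 1/2) ^ (-1/(2-a) + o(1))`. -/
theorem length_of_fourarm {L : I → ℕ} {f : ℕ → ℝ} {a : ℝ} (ha : a < 2) (hf : PN f a)
    (hinf : ∀ M : ℕ, ∃ δ > (0 : ℝ), ∀ p : I, (1 / 2 : ℝ) < p → (p : ℝ) < 1 / 2 + δ → M ≤ L p)
    (hup : ∃ C > (0 : ℝ), ∃ δ > (0 : ℝ), ∀ p : I, (1 / 2 : ℝ) < p → (p : ℝ) < 1 / 2 + δ →
      ((p : ℝ) - 1 / 2) * ((L p : ℝ) ^ 2 * f (L p)) ≤ C)
    (hlow : ∃ c > (0 : ℝ), ∃ δ > (0 : ℝ), ∀ p : I, (1 / 2 : ℝ) < p → (p : ℝ) < 1 / 2 + δ →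
      c ≤ ((p : ℝ) - 1 / 2) * ((L p : ℝ) ^ 2 * f (L p))) :
    PL (fun x => (L (pOf x) : ℝ)) (-(1 / (2 - a))) := by
  have key : ∀ ε > (0 : ℝ), ∃ δ > (0 : ℝ), ∀ p : I, (1 / 2 : ℝ) < p → (p : ℝ) < 1 / 2 + δ →
      (L p : ℝ) ^ (2 - a - ε) ≤ (L p : ℝ) ^ 2 * f (L p) ∧
        (L p : ℝ) ^ 2 * f (L p) ≤ (L p : ℝ) ^ (2 - a + ε) := by
    intro ε hε
    obtain ⟨n₀, hn₀⟩ := hf ε hε
    obtain ⟨δ, hδ, h⟩ := hinf (max n₀ 1)
    refine ⟨δ, hδ, fun p hp hp1 => ?_⟩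
    have h1 := h p hp hp1
    have hL1 : 1 ≤ L p := (le_max_right _ _).trans h1
    have hL0 : (0 : ℝ) < L p := by exact_mod_cast hL1
    obtain ⟨h2, h3⟩ := hn₀ (L p) ((le_max_left _ _).trans h1)
    have e1 : (L p : ℝ) ^ (2 - a - ε) = (L p : ℝ) ^ 2 * (L p : ℝ) ^ (-a - ε) := by
      rw [← Real.rpow_natCast, ← Real.rpow_add hL0]; congr 1; push_cast; ring
    have e2 : (L p : ℝ) ^ (2 - a + ε) = (L p : ℝ) ^ 2 * (L p : ℝ) ^ (-a + ε) := by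
      rw [← Real.rpow_natCast, ← Real.rpow_add hL0]; congr 1; push_cast; ring
    rw [e1, e2]
    exact ⟨mul_le_mul_of_nonneg_left h2 (by positivity),
      mul_le_mul_of_nonneg_left h3 (by positivity)⟩
  refine length_exponent (by linarith) ?_ ?_
  · intro ε hε
    obtain ⟨C, hC, δ₁, hδ₁, h1⟩ := hup
    obtain ⟨δ₂, hδ₂, h2⟩ := key ε hε
    refine ⟨C, hC, min δ₁ δ₂, lt_min hδ₁ hδ₂, fun p hp hp1 => ?_⟩
    have m1 := min_le_left δ₁ δ₂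
    have m2 := min_le_right δ₁ δ₂
    exact (mul_le_mul_of_nonneg_left (h2 p hp (by linarith)).1 (by linarith)).trans
      (h1 p hp (by linarith))
  · intro ε hε
    obtain ⟨C, hC, δ₁, hδ₁, h1⟩ := hlow
    obtain ⟨δ₂, hδ₂, h2⟩ := key ε hε
    refine ⟨C, hC, min δ₁ δ₂, lt_min hδ₁ hδ₂, fun p hp hp1 => ?_⟩
    have m1 := min_le_left δ₁ δ₂
    have m2 := min_le_right δ₁ δ₂
    exact (h1 p hp (by linarith)).trans
      (mul_le_mul_of_nonneg_left (h2 p hp (by linarith)).2 (by linarith))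

/-- `β = a / s`. -/
theorem beta_of_scaling {L : I → ℕ} {a s : ℝ} (ha : 0 < a) (hs : 0 < s)
    (hπ : PN (arm half) a) (hL : PL (fun x => (L (pOf x) : ℝ)) (-(1 / s)))
    (hθ : ∃ c > (0 : ℝ), ∃ C > (0 : ℝ), ∃ δ > (0 : ℝ), ∀ p : I, (1 / 2 : ℝ) < p →
      (p : ℝ) < 1 / 2 + δ → c * arm half (L p) ≤ theta p ∧ theta p ≤ C * arm half (L p)) :
    HasBeta (a / s) := by
  obtain ⟨c, hc, C, hC, δ, hδ, h⟩ := hθ
  obtain ⟨δ', hδ', h'⟩ := transfer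
    (P := fun p _ => c * arm half (L p) ≤ theta p ∧ theta p ≤ C * arm half (L p)) hδ h
  have h1 : PL (fun x => arm half (L (pOf x))) (a * (1 / s)) :=
    PL.comp (L := fun x => L (pOf x)) ha (by positivity) hπ hL
  have h2 : PL (fun x => theta (pOf x)) (a * (1 / s)) := h1.of_between hc hC hδ' h'
  intro ε hε
  obtain ⟨δ₁, hδ₁, h3⟩ := h2 ε hε
  refine ⟨min δ₁ (1 / 2), lt_min hδ₁ (by norm_num), fun p hp hp1 => ?_⟩
  have hp2 : (p : ℝ) - 1 / 2 < δ₁ := by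
    have := min_le_left δ₁ (1 / 2 : ℝ)
    linarith
  have hp3 : (p : ℝ) < 1 := by
    have := min_le_right δ₁ (1 / 2 : ℝ)
    linarith
  have h4 := h3 ((p : ℝ) - 1 / 2) (by linarith) hp2
  simp only [pOf_sub hp hp3] at h4
  rw [mul_one_div] at h4
  exact h4

/-- `γ = (2 - 2 a) / s`. -/
theorem gamma_of_scaling {L : I → ℕ} {a s : ℝ} (ha : 0 < a) (hs : 0 < s)
    (hπ : PN (arm half) a) (hL : PL (fun x => (L (pOf x) : ℝ)) (-(1 / s)))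
    (hσ : ∃ c > (0 : ℝ), ∃ C > (0 : ℝ), ∃ δ > (0 : ℝ), ∀ p : I, (1 / 2 : ℝ) < p →
      (p : ℝ) < 1 / 2 + δ →
      ENNReal.ofReal (c * ((L p : ℝ) ^ 2 * arm half (L p) ^ 2)) ≤
        Pool.Agent.H85.Gamma.sigma (σ p) ∧
      Pool.Agent.H85.Gamma.sigma (σ p) ≤
        ENNReal.ofReal (C * ((L p : ℝ) ^ 2 * arm half (L p) ^ 2))) :
    HasGamma ((2 - 2 * a) / s) := by
  obtain ⟨c, hc, C, hC, δ, hδ, h⟩ := hσ
  have h1 : PL (fun x => arm half (L (pOf x))) (a * (1 / s)) :=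
    PL.comp (L := fun x => L (pOf x)) ha (by positivity) hπ hL
  have h2 : PL (fun x => (L (pOf x) : ℝ) ^ 2 * arm half (L (pOf x)) ^ 2)
      (-((2 - 2 * a) / s)) := by
    have h3 := hL.pow_two.mul h1.pow_two
    have e : 2 * -(1 / s) + 2 * (a * (1 / s)) = -((2 - 2 * a) / s) := by field_simp; ring
    rw [e] at h3
    exact h3
  have hlow : PL (fun x => c * ((L (pOf x) : ℝ) ^ 2 * arm half (L (pOf x)) ^ 2))
      (-((2 - 2 * a) / s)) :=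
    h2.of_between hc hc one_pos fun x _ _ => ⟨le_rfl, le_rfl⟩
  have hupp : PL (fun x => C * ((L (pOf x) : ℝ) ^ 2 * arm half (L (pOf x)) ^ 2))
      (-((2 - 2 * a) / s)) :=
    h2.of_between hC hC one_pos fun x _ _ => ⟨le_rfl, le_rfl⟩
  intro ε hε
  obtain ⟨δ₁, hδ₁, h3⟩ := hlow ε hε
  obtain ⟨δ₂, hδ₂, h4⟩ := hupp ε hε
  refine ⟨min (min δ₁ δ₂) (min δ (1 / 2)),
    lt_min (lt_min hδ₁ hδ₂) (lt_min hδ (by norm_num)), fun p hp hp1 => ?_⟩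
  have m1 : (1 / 2 : ℝ) - p < min (min δ₁ δ₂) (min δ (1 / 2)) := by linarith
  have m2 : (1 / 2 : ℝ) - p < δ₁ := m1.trans_le ((min_le_left _ _).trans (min_le_left _ _))
  have m3 : (1 / 2 : ℝ) - p < δ₂ := m1.trans_le ((min_le_left _ _).trans (min_le_right _ _))
  have m4 : (1 / 2 : ℝ) - p < δ := m1.trans_le ((min_le_right _ _).trans (min_le_left _ _))
  have m5 : (1 / 2 : ℝ) - p < 1 / 2 := m1.trans_le ((min_le_right _ _).trans (min_le_right _ _))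
  have hsp : ((σ p : I) : ℝ) = 1 - p := unitInterval.coe_symm_eq p
  have hq : pOf ((1 / 2 : ℝ) - p) = σ p := by
    have e : (1 / 2 : ℝ) - p = ((σ p : I) : ℝ) - 1 / 2 := by rw [hsp]; ring
    rw [e]
    exact pOf_sub (by rw [hsp]; linarith) (by rw [hsp]; linarith)
  have h5 := h (σ p) (by rw [hsp]; linarith) (by rw [hsp]; linarith)
  rw [unitInterval.symm_symm] at h5
  have h6 := (h3 ((1 / 2 : ℝ) - p) (by linarith) m2).1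
  have h7 := (h4 ((1 / 2 : ℝ) - p) (by linarith) m3).2
  simp only [hq] at h6 h7
  exact ⟨(ENNReal.ofReal_le_ofReal h6).trans h5.1, h5.2.trans (ENNReal.ofReal_le_ofReal h7)⟩

end Pool.Agent.H31.EX
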