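import Pool.Agent.H31.EX.BlockRule
import Pool.Agent.H31.EX.ArmReg
import Pool.Agent.H89.Perc.TorusDet

/-!
# Blocks of the torus: a revealed block has a primal arm and a dual arm
-/

open MeasureTheory ProbabilityTheory unitInterval

namespace Pool.Agent.H31.EX

open Pool.Agent.H89.Perc Pool.Agent.H61.NC

/-- Index of the block of an edge (blocks of side `2 r + 1`). -/
def bIdx (r : ℕ) (e : Edge) : ℤ × ℤ := (e.1 / (2 * r + 1 : ℤ), e.2.1 / (2 * r + 1 : ℤ))

/-- Number of blocks in one direction. -/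
def nB (N r : ℕ) : ℕ := (N + 2 * r) / (2 * r + 1)

/-- The block with index `b`. -/
noncomputable def tBlk (N r : ℕ) (b : ℤ × ℤ) : Finset Edge :=
  Pool.Agent.H85.Kes.blk (tEdges N) (bIdx r) b

lemma mem_tEdges {N : ℕ} {e : Edge} :
    e ∈ tEdges N ↔ (0 ≤ e.1 ∧ e.1 < N) ∧ (0 ≤ e.2.1 ∧ e.2.1 < N) := by
  simp only [tEdges, Finset.mem_product, Finset.mem_Ico, Finset.mem_univ, and_true]

lemma mem_tBlk {N r : ℕ} {b : ℤ × ℤ} {e : Edge} :
    e ∈ tBlk N r b ↔ e ∈ tEdges N ∧ (b.1 * (2 * r + 1) ≤ e.1 ∧ e.1 ≤ b.1 * (2 * r + 1) + 2 * r) ∧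
      (b.2 * (2 * r + 1) ≤ e.2.1 ∧ e.2.1 ≤ b.2 * (2 * r + 1) + 2 * r) := by
  have hw : (0 : ℤ) < 2 * r + 1 := by positivity
  have key : ∀ x i : ℤ, x / (2 * r + 1) = i ↔ (i * (2 * r + 1) ≤ x ∧ x ≤ i * (2 * r + 1) + 2 * r) := by
    intro x i
    constructor
    · rintro rfl
      have h1 := Int.ediv_mul_le x hw.ne'
      have h2 := Int.lt_ediv_add_one_mul_self x hw
      constructor
      · exact h1
      · have h3 : (x / (2 * r + 1) + 1) * (2 * r + 1) =
          x / (2 * r + 1) * (2 * r + 1) + (2 * r + 1) := by ring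
        rw [h3] at h2
        omega
    · rintro ⟨h1, h2⟩
      apply le_antisymm
      · apply Int.lt_add_one_iff.1
        apply Int.ediv_lt_of_lt_mul hw
        have h3 : (i + 1) * (2 * (r : ℤ) + 1) = i * (2 * r + 1) + (2 * r + 1) := by ring
        rw [h3]
        omega
      · exact (Int.le_ediv_iff_mul_le hw).2 h1
  unfold tBlk
  rw [Pool.Agent.H85.Kes.mem_blk]
  unfold bIdx
  rw [Prod.ext_iff]
  simp only [key]

lemma nB_spec {N r : ℕ} (hN : 1 ≤ N) : 1 ≤ nB N r ∧ (((nB N r : ℤ) - 1) * (2 * r + 1) + 1 ≤ N) ∧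
    ((N : ℤ) ≤ nB N r * (2 * r + 1)) := by
  have hw : 0 < 2 * r + 1 := by omega
  have h1 : nB N r * (2 * r + 1) ≤ N + 2 * r := Nat.div_mul_le_self _ _
  have h2 : N + 2 * r < (nB N r + 1) * (2 * r + 1) := by
    have h := Nat.lt_mul_div_succ (N + 2 * r) hw
    unfold nB
    calc N + 2 * r < (2 * r + 1) * ((N + 2 * r) / (2 * r + 1) + 1) := h
      _ = _ := Nat.mul_comm _ _
  have h3 : 1 ≤ nB N r := by
    unfold nB
    rw [Nat.le_div_iff_mul_le hw]
    omega
  refine ⟨h3, ?_, ?_⟩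
  · have : ((nB N r : ℤ)) * (2 * r + 1) ≤ N + 2 * r := by exact_mod_cast h1
    have e : ((nB N r : ℤ) - 1) * (2 * r + 1) = (nB N r : ℤ) * (2 * r + 1) - (2 * r + 1) := by ring
    rw [e]
    omega
  · have : (N : ℤ) + 2 * r < ((nB N r : ℤ) + 1) * (2 * r + 1) := by exact_mod_cast h2
    have e : ((nB N r : ℤ) + 1) * (2 * r + 1) = (nB N r : ℤ) * (2 * r + 1) + (2 * r + 1) := by ring
    rw [e] at this
    omega

/-- All block indices. -/
noncomputable def bAll (N r : ℕ) : Finset (ℤ × ℤ) :=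
  Finset.Ico (0 : ℤ) (nB N r) ×ˢ Finset.Ico (0 : ℤ) (nB N r)

lemma bIdx_mem {N r : ℕ} (hN : 1 ≤ N) {e : Edge} (he : e ∈ tEdges N) : bIdx r e ∈ bAll N r := by
  rw [mem_tEdges] at he
  obtain ⟨-, -, h3⟩ := nB_spec (r := r) hN
  have hw : (0 : ℤ) < 2 * r + 1 := by positivity
  unfold bAll bIdx
  rw [Finset.mem_product, Finset.mem_Ico, Finset.mem_Ico]
  refine ⟨⟨Int.ediv_nonneg he.1.1 hw.le, Int.ediv_lt_of_lt_mul hw (by omega)⟩,
    ⟨Int.ediv_nonneg he.2.1 hw.le, Int.ediv_lt_of_lt_mul hw (by omega)⟩⟩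

lemma expl_inv' (R : Rule) (ω : Config) (n : ℕ) :
    (∀ e ∈ (expl R ω n).1, ω e = true) ∧ (∀ e ∈ (expl R ω n).2, ω e = false) := by
  induction n with
  | zero => simp [expl]
  | succ n ih =>
    rw [expl_succ]
    unfold explStep
    cases h : R (expl R ω n).1 (expl R ω n).2 with
    | none => simpa using ih
    | some e =>
      by_cases hω : ω e = true
      · simp only [hω, if_true, Finset.mem_insert]
        exact ⟨fun e' he' => he'.elim (fun h => h ▸ hω) (ih.1 e'), ih.2⟩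
      · simp only [if_neg hω, Finset.mem_insert]
        exact ⟨ih.1, fun e' he' => he'.elim (fun h => h ▸ by simpa using hω) (ih.2 e')⟩

/-- A revealed block has a primal arm and a dual arm. -/
theorem block_reveal_subset {N r : ℕ} (hN : 1 ≤ N) {b : ℤ × ℤ} {d R : ℕ} (hd : 1 ≤ d)
    (h1 : (d : ℤ) ≤ b.1) (h2 : (d : ℤ) ≤ nB N r - 1 - b.1) (h3 : (d : ℤ) ≤ b.2)
    (h4 : (d : ℤ) ≤ nB N r - 1 - b.2) (hR : R + r = d * (2 * r + 1)) :
    {ω | ∃ e ∈ tBlk N r b, e ∈ queried (torusRule N) ω (tEdges N).card} ⊆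
      ArmBox (b.1 * (2 * r + 1) + r, b.2 * (2 * r + 1) + r) (r + 1) R ∩
      {ω | dual ω ∈ ArmBox (b.1 * (2 * r + 1) + r, b.2 * (2 * r + 1) + r) (r + 1) R} := by
  set w : ℤ := 2 * r + 1 with hw
  have hw0 : 0 < w := by positivity
  have hRw : (R : ℤ) + r = d * w := by rw [hw]; exact_mod_cast hR
  obtain ⟨-, hK, -⟩ := nB_spec (r := r) hN
  rw [← hw] at hK
  have g1 : (d : ℤ) * w ≤ b.1 * w := mul_le_mul_of_nonneg_right h1 hw0.le
  have g3 : (d : ℤ) * w ≤ b.2 * w := mul_le_mul_of_nonneg_right h3 hw0.le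
  have g2 : (d : ℤ) * w ≤ (nB N r - 1) * w - b.1 * w := by
    have := mul_le_mul_of_nonneg_right h2 hw0.le
    linarith [this, sub_mul ((nB N r : ℤ) - 1) b.1 w]
  have g4 : (d : ℤ) * w ≤ (nB N r - 1) * w - b.2 * w := by
    have := mul_le_mul_of_nonneg_right h4 hw0.le
    linarith [this, sub_mul ((nB N r : ℤ) - 1) b.2 w]
  have gd : w ≤ (d : ℤ) * w := by
    have : (1 : ℤ) ≤ d := by exact_mod_cast hd
    nlinarith
  set v1 : ℤ := b.1 * w + r with hv1
  set v2 : ℤ := b.2 * w + r with hv2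
  rintro ω ⟨e, heb, hω⟩
  rw [mem_tBlk] at heb
  obtain ⟨-, he1, he2⟩ := heb
  rw [← hw] at he1 he2
  obtain ⟨m, hm⟩ := exists_ask_of_queried _ hω
  obtain ⟨_, _, _, hc⟩ := torusRule_spec hm
  obtain ⟨hO, hC⟩ := expl_inv' (torusRule N) ω m
  have hnb : ¬ IsBd e := by
    rintro (⟨_, h⟩ | ⟨_, h⟩) <;> omega
  obtain ⟨hV, φ, hφ, hφr⟩ := hc.resolve_left hnb
  constructor
  · have hArm : ∀ u : Vert, u ∈ reachV N (expl (torusRule N) ω m).1 →
        u ∈ ball (v1, v2) (r + 1) → ω ∈ ArmBox (v1, v2) (r + 1) R := by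
      rintro u ⟨x, hx, hc⟩ hu
      have hc' : Conn ω (rect 0 N 0 N) u x :=
        (hc.mono le_rfl fun e' he' => hO e' (by simpa using he')).symm
      have hu' : u ∈ ball (v1, v2) R := by
        simp only [mem_ball] at hu ⊢
        push_cast at hu
        omega
      obtain ⟨y, hy, hcy⟩ := hc'.to_sphere hu' (by
        by_cases h1 : x ∈ ball (v1, v2) R
        · right
          refine ⟨h1, ?_⟩
          simp only [mem_ball] at h1 ⊢
          obtain ⟨_, hx⟩ := hx
          rcases hx with h | h | h | h <;> omega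
        · exact Or.inl h1)
      exact ⟨u, hu, y, hy, hcy.mono_set Set.inter_subset_right⟩
    rcases hV with hV | hV
    · refine hArm _ hV ?_
      simp only [mem_ball, src]
      push_cast
      omega
    · refine hArm _ hV ?_
      simp only [mem_ball, tgt]
      split_ifs <;> simp only <;> push_cast <;> omega
  · have hDual : φ ∈ ball (v1, v2) (r + 1) → dual ω ∈ ArmBox (v1, v2) (r + 1) R := by
      intro hu
      obtain ⟨x, hx, hc⟩ := hφr
      have hc' : Conn (dual ω) (rect 0 (N - 1) 0 (N - 1)) φ x :=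
        (hc.mono le_rfl fun e' he' => by
          simp only [decide_eq_true_eq] at he'
          simp [dual, hC _ he']).symm
      have hu' : φ ∈ ball (v1, v2) R := by
        simp only [mem_ball] at hu ⊢
        push_cast at hu
        omega
      obtain ⟨y, hy, hcy⟩ := hc'.to_sphere hu' (by
        by_cases h1 : x ∈ ball (v1, v2) R
        · right
          refine ⟨h1, ?_⟩
          simp only [mem_ball] at h1 ⊢
          obtain ⟨_, hx⟩ := hx
          rcases hx with h | h | h | h <;> omega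
        · exact Or.inl h1)
      exact ⟨φ, hu, y, hy, hcy.mono_set Set.inter_subset_right⟩
    refine hDual ?_
    rcases hφ with hφ | hφ
    · subst hφ
      simp only [mem_ball, src]
      push_cast
      omega
    · rw [hφ]
      simp only [mem_ball]
      split_ifs <;> simp only <;> push_cast <;> omega

end Pool.Agent.H31.EX
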