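import Pool.Agent.H85.Kes.BlockOSSS

/-!
# Block OSSS inequality for an exploration that queries single edges

From an exploration rule for single edges we make a rule for blocks: run the edge exploration on
the revealed blocks; when it asks for an edge of a block that is not revealed, reveal this block.
-/

open MeasureTheory ProbabilityTheory unitInterval

namespace Pool.Agent.H31.EX

open Pool.Agent.H89.Perc Pool.Agent.H85.Kes

/-- The edge asked for at step `m` of the exploration. -/
def ask (N : Rule) (ω : Config) (m : ℕ) : Option Edge := N (expl N ω m).1 (expl N ω m).2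

lemma expl_succ (R : Rule) (ω : Config) (n : ℕ) :
    expl R ω (n + 1) = explStep R ω (expl R ω n) := by
  simp only [expl, Function.iterate_succ_apply']

lemma expl_congr {N : Rule} {ω ω' : Config} {m : ℕ}
    (h : ∀ m' < m, ∀ e, ask N ω m' = some e → ω e = ω' e) : expl N ω' m = expl N ω m := by
  induction m with
  | zero => rfl
  | succ m ih =>
    rw [expl_succ, expl_succ, ih fun m' hm' => h m' (by omega)]
    rcases hN : ask N ω m with _ | e
    · rw [explStep_none hN, explStep_none hN]
    · have he := h m (by omega) e hN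
      rcases ho : ω e with _ | _
      · rw [explStep_some_false hN ho, explStep_some_false hN (he ▸ ho)]
      · rw [explStep_some_true hN ho, explStep_some_true hN (he ▸ ho)]

lemma ask_congr {N : Rule} {ω ω' : Config} {m : ℕ}
    (h : ∀ m' < m, ∀ e, ask N ω m' = some e → ω e = ω' e) : ask N ω' m = ask N ω m := by
  unfold ask
  rw [expl_congr h]

lemma queried_mono {N : Rule} {ω : Config} {m n : ℕ} (h : m ≤ n) :
    queried N ω m ⊆ queried N ω n := by
  induction n, h using Nat.le_induction with
  | base => exact le_rfl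
  | succ n _ ih =>
    refine ih.trans ?_
    unfold queried
    rw [expl_succ]
    exact Finset.union_subset_union (explStep_subset N ω _).1 (explStep_subset N ω _).2

variable {s : Finset Edge} {N : Rule}

lemma card_queried (hN : ∀ O C e, N O C = some e → e ∈ s ∧ e ∉ O ∧ e ∉ C) (ω : Config) (m : ℕ)
    (h : ask N ω m ≠ none) : queried N ω m ⊆ s ∧ (queried N ω m).card = m ∧
      ∀ m' < m, ask N ω m' ≠ none := by
  induction m with
  | zero => simp [queried, expl]
  | succ m ih =>
    have hne : ask N ω m ≠ none := by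
      intro h0
      apply h
      have : expl N ω (m + 1) = expl N ω m := by rw [expl_succ, explStep_none h0]
      unfold ask
      rw [this]
      exact h0
    obtain ⟨h1, h2, h3⟩ := ih hne
    obtain ⟨e, he⟩ := Option.ne_none_iff_exists'.1 hne
    obtain ⟨e1, e2, e3⟩ := hN _ _ _ he
    have hq : queried N ω (m + 1) = insert e (queried N ω m) := by
      unfold queried
      rw [expl_succ]
      rcases ho : ω e with _ | _
      · rw [explStep_some_false he ho]
        simp only [Finset.union_insert]
      · rw [explStep_some_true he ho]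
        simp only [Finset.insert_union]
    have hnm : e ∉ queried N ω m := by
      unfold queried
      rw [Finset.mem_union]
      tauto
    refine ⟨?_, ?_, ?_⟩
    · rw [hq]
      exact Finset.insert_subset e1 h1
    · rw [hq, Finset.card_insert_of_notMem hnm, h2]
    · intro m' hm'
      rcases Nat.lt_succ_iff_lt_or_eq.1 hm' with h' | h'
      · exact h3 m' h'
      · rw [h']; exact hne

lemma mem_queried_of_ask (hN : ∀ O C e, N O C = some e → e ∈ s ∧ e ∉ O ∧ e ∉ C) {ω : Config}
    {m : ℕ} {e : Edge} (h : ask N ω m = some e) : e ∈ queried N ω s.card := by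
  obtain ⟨e1, e2, e3⟩ := hN _ _ _ h
  obtain ⟨h1, h2, -⟩ := card_queried hN ω m (by rw [h]; simp)
  have hnm : e ∉ queried N ω m := by
    unfold queried
    rw [Finset.mem_union]
    tauto
  have h3 : m < s.card := by
    rw [← h2]
    refine Finset.card_lt_card ⟨h1, fun h4 => hnm (h4 e1)⟩
  refine queried_mono (Nat.succ_le_of_lt h3) ?_
  unfold queried
  rw [expl_succ]
  rcases ho : ω e with _ | _
  · rw [explStep_some_false h ho]
    simp
  · rw [explStep_some_true h ho]
    simp

lemma exists_ask_of_queried {ω : Config} (n : ℕ) {e : Edge} (he : e ∈ queried N ω n) :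
    ∃ m, ask N ω m = some e := by
  induction n with
  | zero => simp [queried, expl] at he
  | succ n ih =>
    by_cases h : e ∈ queried N ω n
    · exact ih h
    refine ⟨n, ?_⟩
    rw [queried, expl_succ] at he
    rw [queried] at h
    rcases h' : ask N ω n with _ | e'
    · rw [explStep_none h'] at he
      exact absurd he h
    · rcases ho : ω e' with _ | _
      · rw [explStep_some_false h' ho] at he
        simp only [Finset.mem_union, Finset.mem_insert] at he h
        have : e = e' := by tauto
        rw [this]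
      · rw [explStep_some_true h' ho] at he
        simp only [Finset.mem_union, Finset.mem_insert] at he h
        have : e = e' := by tauto
        rw [this]

variable {κ : Type*} [DecidableEq κ] {β : Edge → κ}

variable (β N) in
/-- At step `m` the exploration on the configuration `O` asks for an edge of a new block. -/
def NewAt (D : Finset κ) (O : Finset Edge) (m : ℕ) : Prop :=
  ∃ e, ask N (ofS O) m = some e ∧ β e ∉ D

variable (β N) in
/-- The rule for blocks made from a rule for edges. -/
noncomputable def bRule : BRule κ := fun D O => by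
  classical exact if h : ∃ m, NewAt N β D O m then some (β (Nat.find_spec h).choose) else none

lemma bRule_spec {D : Finset κ} {O : Finset Edge} {b : κ} (h : bRule N β D O = some b) :
    ∃ m e, ask N (ofS O) m = some e ∧ β e = b ∧ b ∉ D ∧
      ∀ m' < m, ∀ e', ask N (ofS O) m' = some e' → β e' ∈ D := by
  classical
  unfold bRule at h
  split_ifs at h with h'
  obtain ⟨h1, h2⟩ := (Nat.find_spec h').choose_spec
  refine ⟨Nat.find h', (Nat.find_spec h').choose, h1, Option.some.inj h, ?_, ?_⟩
  · rw [← Option.some.inj h]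
    exact h2
  · intro m' hm' e' he'
    by_contra hc
    exact Nat.find_min h' hm' ⟨e', he', hc⟩

lemma bRule_none {D : Finset κ} {O : Finset Edge} (h : bRule N β D O = none) (m : ℕ) (e : Edge)
    (he : ask N (ofS O) m = some e) : β e ∈ D := by
  classical
  by_contra hc
  unfold bRule at h
  rw [dif_pos ⟨m, e, he, hc⟩] at h
  exact absurd h (by simp)

variable (s β N) in
/-- State of the block exploration. -/
noncomputable def bSt (ω : Config) (n : ℕ) : Finset κ × Finset Edge :=
  (bStep s β (bRule N β) ω)^[n] (∅, ∅)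

lemma bSt_succ (ω : Config) (n : ℕ) :
    bSt s N β ω (n + 1) = bStep s β (bRule N β) ω (bSt s N β ω n) := by
  simp only [bSt, Function.iterate_succ_apply']

lemma mem_bSt (ω : Config) (n : ℕ) (e : Edge) :
    e ∈ (bSt s N β ω n).2 ↔ e ∈ s ∧ β e ∈ (bSt s N β ω n).1 ∧ ω e = true := by
  induction n with
  | zero => simp [bSt]
  | succ n ih =>
    rw [bSt_succ]
    rcases h : bRule N β (bSt s N β ω n).1 (bSt s N β ω n).2 with _ | b
    · rw [bStep_none h]; exact ih
    · rw [bStep_some h]
      simp only [Finset.mem_union, Finset.mem_filter, mem_blk, Finset.mem_insert, ih]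
      tauto

/-- The configuration known to the block exploration agrees with `ω` on the revealed blocks. -/
lemma ofS_bSt {ω : Config} {n : ℕ} {e : Edge} (he : e ∈ s) (hb : β e ∈ (bSt s N β ω n).1) :
    ofS (bSt s N β ω n).2 e = ω e := by
  rw [ofS_apply]
  rcases ho : ω e with _ | _
  · rw [decide_eq_false_iff_not, mem_bSt]
    rintro ⟨-, -, h⟩
    rw [ho] at h
    exact absurd h (by simp)
  · rw [decide_eq_true_iff, mem_bSt]
    exact ⟨he, hb, ho⟩

lemma bSt_ask (hN : ∀ O C e, N O C = some e → e ∈ s ∧ e ∉ O ∧ e ∉ C) {ω : Config} {n m : ℕ}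
    (h : ∀ m' < m, ∀ e', ask N (ofS (bSt s N β ω n).2) m' = some e' → β e' ∈ (bSt s N β ω n).1) :
    ask N ω m = ask N (ofS (bSt s N β ω n).2) m := by
  refine ask_congr fun m' hm' e' he' => ?_
  exact ofS_bSt (hN _ _ _ he').1 (h m' hm' e' he')

lemma queried_of_revealed (hN : ∀ O C e, N O C = some e → e ∈ s ∧ e ∉ O ∧ e ∉ C) (ω : Config)
    (n : ℕ) (b : κ) (hb : b ∈ (bSt s N β ω n).1) :
    ∃ e ∈ blk s β b, e ∈ queried N ω s.card := by
  induction n with
  | zero => simp [bSt] at hb
  | succ n ih =>
    rw [bSt_succ] at hb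
    rcases h : bRule N β (bSt s N β ω n).1 (bSt s N β ω n).2 with _ | b'
    · rw [bStep_none h] at hb
      exact ih hb
    · rw [bStep_some h] at hb
      rcases Finset.mem_insert.1 hb with rfl | hb
      · obtain ⟨m, e, h1, h2, h3, h4⟩ := bRule_spec h
        have h5 := bSt_ask hN h4
        rw [h1] at h5
        exact ⟨e, mem_blk.2 ⟨(hN _ _ _ h5).1, h2⟩, mem_queried_of_ask hN h5⟩
      · exact ih hb

lemma bRule_mem (hN : ∀ O C e, N O C = some e → e ∈ s ∧ e ∉ O ∧ e ∉ C) {K : Finset κ}
    (hK : ∀ e ∈ s, β e ∈ K) (D : Finset κ) (O : Finset Edge) (b : κ)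
    (h : bRule N β D O = some b) : b ∈ K ∧ b ∉ D := by
  obtain ⟨m, e, h1, h2, h3, h4⟩ := bRule_spec h
  refine ⟨?_, h3⟩
  rw [← h2]
  exact hK e (hN _ _ _ h1).1

lemma bSt_stop (hN : ∀ O C e, N O C = some e → e ∈ s ∧ e ∉ O ∧ e ∉ C) {K : Finset κ}
    (hK : ∀ e ∈ s, β e ∈ K) (ω : Config) (n : ℕ) :
    (bSt s N β ω n).1 ⊆ K ∧ (bRule N β (bSt s N β ω n).1 (bSt s N β ω n).2 = none ∨
      n ≤ (bSt s N β ω n).1.card) := by
  induction n with
  | zero => simp [bSt]
  | succ n ih =>
    obtain ⟨h1, h2⟩ := ih
    rcases h : bRule N β (bSt s N β ω n).1 (bSt s N β ω n).2 with _ | b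
    · rw [bSt_succ, bStep_none h]
      exact ⟨h1, Or.inl h⟩
    · have hb := bRule_mem hN hK _ _ _ h
      rw [bSt_succ, bStep_some h]
      refine ⟨Finset.insert_subset hb.1 h1, Or.inr ?_⟩
      rw [Finset.card_insert_of_notMem hb.2]
      rcases h2 with h2 | h2
      · rw [h] at h2
        exact absurd h2 (by simp)
      · omega

lemma bSt_final (hN : ∀ O C e, N O C = some e → e ∈ s ∧ e ∉ O ∧ e ∉ C) {K : Finset κ}
    (hK : ∀ e ∈ s, β e ∈ K) (ω : Config) :
    bRule N β (bSt s N β ω K.card).1 (bSt s N β ω K.card).2 = none := by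
  obtain ⟨h1, h2⟩ := bSt_stop hN hK ω K.card
  rcases h2 with h2 | h2
  · exact h2
  · have h3 : (bSt s N β ω K.card).1 = K := Finset.eq_of_subset_of_card_le h1 h2
    rcases h : bRule N β (bSt s N β ω K.card).1 (bSt s N β ω K.card).2 with _ | b
    · rfl
    · have hb := bRule_mem hN hK _ _ _ h
      rw [h3] at hb
      exact absurd hb.1 hb.2

/-- **Block OSSS inequality** for an increasing local event determined by an exploration of single
edges: a block counts as revealed when one of its edges is queried. -/
theorem block_osss_rule {A : Set Config} (hA : LocalOn s A) (iA : Incr A) {K : Finset κ}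
    (hK : ∀ e ∈ s, β e ∈ K) (hN : ∀ O C e, N O C = some e → e ∈ s ∧ e ∉ O ∧ e ∉ C)
    (hdet : ∀ ω ω' : Config, (∀ e ∈ queried N ω s.card, ω e = ω' e) → ω ∈ A → ω' ∈ A) (p : I) :
    Pr p A * (1 - Pr p A) ≤
      ∑ b ∈ K, Pr p {ω | ∃ e ∈ blk s β b, e ∈ queried N ω s.card} *
        Pr p (BPiv (blk s β b) A) := by
  have key := block_osss (R := bRule N β) hA iA hK (bRule_mem hN hK)
    (by
      intro ω ω' h hω
      refine hdet ω ω' (fun e he => ?_) hω
      obtain ⟨m, hm⟩ := exists_ask_of_queried _ he
      have h1 : ∀ m' e', ask N (ofS (bSt s N β ω K.card).2) m' = some e' →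
          β e' ∈ (bSt s N β ω K.card).1 := fun m' e' h' => bRule_none (bSt_final hN hK ω) m' e' h'
      have h2 := bSt_ask (m := m) hN (ω := ω) (n := K.card) fun m' _ e' h' => h1 m' e' h'
      rw [h2] at hm
      exact h e (hN _ _ _ hm).1 (h1 m e hm)) p
  refine key.trans (Finset.sum_le_sum fun b _ => ?_)
  refine mul_le_mul_of_nonneg_right ?_ (Pr_nonneg)
  refine Pr_mono ?_
  intro ω hω
  exact queried_of_revealed hN ω K.card b hω

end Pool.Agent.H31.EX
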