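import Mathlib

/-!
# Power laws with `o(1)` in the exponent

`PL F a` means `F h = h ^ (a + o(1))` as `h ↓ 0`, `PN f a` means `f n = n ^ (-a + o(1))` as
`n → ∞`.
-/

namespace Pool.Agent.H31.EX

/-- `F h = h ^ (a + o(1))` as `h ↓ 0`. -/
def PL (F : ℝ → ℝ) (a : ℝ) : Prop :=
  ∀ ε > (0 : ℝ), ∃ δ > (0 : ℝ), ∀ h : ℝ, 0 < h → h < δ → h ^ (a + ε) ≤ F h ∧ F h ≤ h ^ (a - ε)

/-- `f n = n ^ (-a + o(1))` as `n → ∞`. -/
def PN (f : ℕ → ℝ) (a : ℝ) : Prop :=
  ∀ ε > (0 : ℝ), ∃ n₀ : ℕ, ∀ n : ℕ, n₀ ≤ n → (n : ℝ) ^ (-a - ε) ≤ f n ∧ f n ≤ (n : ℝ) ^ (-a + ε)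

/-- A positive power of a small number is smaller than a constant. -/
lemma exists_rpow_le {ε c : ℝ} (hε : 0 < ε) (hc : 0 < c) :
    ∃ δ > (0 : ℝ), δ ≤ 1 ∧ ∀ h : ℝ, 0 < h → h < δ → h ^ ε ≤ c := by
  refine ⟨min 1 (c ^ (1 / ε)), lt_min one_pos (by positivity), min_le_left _ _, fun h h0 h1 => ?_⟩
  have h2 : h ≤ c ^ (1 / ε) := (h1.le).trans (min_le_right _ _)
  calc h ^ ε ≤ (c ^ (1 / ε)) ^ ε := Real.rpow_le_rpow h0.le h2 hε.le
    _ = c := by
      rw [← Real.rpow_mul hc.le, one_div_mul_cancel hε.ne', Real.rpow_one]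

/-- A function between two multiples of a power law satisfies the same power law. -/
lemma PL.of_between {F G : ℝ → ℝ} {a c C δ₀ : ℝ} (hF : PL F a) (hc : 0 < c) (hC : 0 < C)
    (hδ₀ : 0 < δ₀) (h : ∀ x : ℝ, 0 < x → x < δ₀ → c * F x ≤ G x ∧ G x ≤ C * F x) : PL G a := by
  intro ε hε
  obtain ⟨δ₁, hδ₁, hF1⟩ := hF (ε / 2) (by positivity)
  obtain ⟨δ₂, hδ₂, -, h2⟩ := exists_rpow_le (ε := ε / 2) (c := c) (by positivity) hc
  obtain ⟨δ₃, hδ₃, -, h3⟩ := exists_rpow_le (ε := ε / 2) (c := C⁻¹) (by positivity) (by positivity)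
  refine ⟨min (min δ₀ δ₁) (min δ₂ δ₃), lt_min (lt_min hδ₀ hδ₁) (lt_min hδ₂ hδ₃), fun x x0 x1 => ?_⟩
  have y0 : x < δ₀ := x1.trans_le ((min_le_left _ _).trans (min_le_left _ _))
  have y1 : x < δ₁ := x1.trans_le ((min_le_left _ _).trans (min_le_right _ _))
  have y2 : x < δ₂ := x1.trans_le ((min_le_right _ _).trans (min_le_left _ _))
  have y3 : x < δ₃ := x1.trans_le ((min_le_right _ _).trans (min_le_right _ _))
  obtain ⟨g1, g2⟩ := h x x0 y0
  obtain ⟨f1, f2⟩ := hF1 x x0 y1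
  have z2 := h2 x x0 y2
  have z3 := h3 x x0 y3
  have p1 : 0 < x ^ (a + ε / 2) := by positivity
  have p2 : 0 < x ^ (a - ε) := by positivity
  constructor
  · calc x ^ (a + ε) = x ^ (ε / 2) * x ^ (a + ε / 2) := by
          rw [← Real.rpow_add x0]; congr 1; ring
      _ ≤ c * x ^ (a + ε / 2) := mul_le_mul_of_nonneg_right z2 p1.le
      _ ≤ c * F x := mul_le_mul_of_nonneg_left f1 hc.le
      _ ≤ G x := g1
  · have e : x ^ (a - ε / 2) = x ^ (ε / 2) * x ^ (a - ε) := by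
      rw [← Real.rpow_add x0]; congr 1; ring
    calc G x ≤ C * F x := g2
      _ ≤ C * x ^ (a - ε / 2) := mul_le_mul_of_nonneg_left f2 hC.le
      _ = C * (x ^ (ε / 2) * x ^ (a - ε)) := by rw [e]
      _ ≤ C * (C⁻¹ * x ^ (a - ε)) :=
          mul_le_mul_of_nonneg_left (mul_le_mul_of_nonneg_right z3 p2.le) hC.le
      _ = x ^ (a - ε) := by rw [← mul_assoc, mul_inv_cancel₀ hC.ne', one_mul]

/-- Products of power laws. -/
lemma PL.mul {F G : ℝ → ℝ} {a b : ℝ} (hF : PL F a) (hG : PL G b) :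
    PL (fun x => F x * G x) (a + b) := by
  intro ε hε
  obtain ⟨δ₁, hδ₁, hF1⟩ := hF (ε / 2) (by positivity)
  obtain ⟨δ₂, hδ₂, hG1⟩ := hG (ε / 2) (by positivity)
  refine ⟨min δ₁ δ₂, lt_min hδ₁ hδ₂, fun x x0 x1 => ?_⟩
  obtain ⟨f1, f2⟩ := hF1 x x0 (x1.trans_le (min_le_left _ _))
  obtain ⟨g1, g2⟩ := hG1 x x0 (x1.trans_le (min_le_right _ _))
  have p1 : 0 < x ^ (a + ε / 2) := by positivity
  have p2 : 0 < x ^ (b + ε / 2) := by positivity
  constructor
  · calc x ^ (a + b + ε) = x ^ (a + ε / 2) * x ^ (b + ε / 2) := by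
          rw [← Real.rpow_add x0]; congr 1; ring
      _ ≤ F x * G x := mul_le_mul f1 g1 p2.le (p1.le.trans f1)
  · calc F x * G x ≤ x ^ (a - ε / 2) * x ^ (b - ε / 2) :=
          mul_le_mul f2 g2 (p2.le.trans g1) (by positivity)
      _ = x ^ (a + b - ε) := by
          rw [← Real.rpow_add x0]; congr 1; ring

lemma PL.pow_two {F : ℝ → ℝ} {a : ℝ} (hF : PL F a) : PL (fun x => F x ^ 2) (2 * a) := by
  have := hF.mul hF
  intro ε hε
  obtain ⟨δ, hδ, h⟩ := this ε hε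
  refine ⟨δ, hδ, fun x x0 x1 => ?_⟩
  have h1 := h x x0 x1
  simp only [_root_.pow_two, two_mul] at h1 ⊢
  exact h1

/-- Composition of a power law in `n` with a length which diverges like a power. -/
lemma PL.comp {f : ℕ → ℝ} {L : ℝ → ℕ} {a b : ℝ} (ha : 0 < a) (hb : 0 < b) (hf : PN f a)
    (hL : PL (fun x => (L x : ℝ)) (-b)) : PL (fun x => f (L x)) (a * b) := by
  intro ε hε
  -- choice of the small parameter
  set t : ℝ := min (min (a / 2) (b / 2)) (min 1 (ε / (a + b + 2))) with ht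
  have ht0 : 0 < t := by
    refine lt_min (lt_min (by positivity) (by positivity)) (lt_min one_pos (by positivity))
  have hta : t ≤ a / 2 := (min_le_left _ _).trans (min_le_left _ _)
  have htb : t ≤ b / 2 := (min_le_left _ _).trans (min_le_right _ _)
  have ht1 : t ≤ 1 := (min_le_right _ _).trans (min_le_left _ _)
  have hte : t ≤ ε / (a + b + 2) := (min_le_right _ _).trans (min_le_right _ _)
  have hte' : t * (a + b + 2) ≤ ε := by rwa [le_div_iff₀ (by positivity)] at hte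
  obtain ⟨n₀, hn₀⟩ := hf t ht0
  obtain ⟨δ₁, hδ₁, hL1⟩ := hL t ht0
  have hbt : 0 < b - t := by linarith
  have hat : 0 < a - t := by linarith
  obtain ⟨δ₂, hδ₂, hδ₂1, h2⟩ := exists_rpow_le (ε := b - t) (c := ((n₀ : ℝ) + 1)⁻¹) hbt
    (by positivity)
  refine ⟨min δ₁ δ₂, lt_min hδ₁ hδ₂, fun x x0 x1 => ?_⟩
  have x2 : x < δ₂ := x1.trans_le (min_le_right _ _)
  have x3 : x ≤ 1 := x2.le.trans hδ₂1
  obtain ⟨l1, l2⟩ := hL1 x x0 (x1.trans_le (min_le_left _ _))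
  have k1 := h2 x x0 x2
  -- `L x` is large
  have hinv : x ^ (-b + t) = (x ^ (b - t))⁻¹ := by
    rw [← Real.rpow_neg x0.le]; congr 1; ring
  have hbig : (n₀ : ℝ) + 1 ≤ L x := by
    refine le_trans ?_ l1
    rw [hinv, le_inv_comm₀ (by positivity) (by positivity)]
    exact k1
  have hLn : n₀ ≤ L x := by
    have : (n₀ : ℝ) ≤ L x := by linarith
    exact_mod_cast this
  have hLpos : (0 : ℝ) < L x := by
    have : (0 : ℝ) ≤ n₀ := Nat.cast_nonneg _
    linarith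
  obtain ⟨f1, f2⟩ := hn₀ (L x) hLn
  have q1 : 0 < x ^ (-b + t) := by positivity
  constructor
  · refine le_trans ?_ f1
    have e1 : (L x : ℝ) ^ (-a - t) = ((L x : ℝ) ^ (a + t))⁻¹ := by
      rw [← Real.rpow_neg hLpos.le]; congr 1; ring
    have e2 : ((L x : ℝ)) ^ (a + t) ≤ (x ^ (-b - t)) ^ (a + t) :=
      Real.rpow_le_rpow hLpos.le l2 (by linarith)
    have e3 : (x ^ (-b - t)) ^ (a + t) = (x ^ ((b + t) * (a + t)))⁻¹ := by
      rw [← Real.rpow_mul x0.le, ← Real.rpow_neg x0.le]; congr 1; ring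
    rw [e1, le_inv_comm₀ (by positivity) (by positivity)]
    refine e2.trans (le_of_eq e3 |>.trans ?_)
    rw [inv_le_inv₀ (by positivity) (by positivity)]
    refine Real.rpow_le_rpow_of_exponent_ge x0 x3 ?_
    nlinarith
  · refine f2.trans ?_
    have e1 : (L x : ℝ) ^ (-a + t) = ((L x : ℝ) ^ (a - t))⁻¹ := by
      rw [← Real.rpow_neg hLpos.le]; congr 1; ring
    have e2 : (x ^ (-b + t)) ^ (a - t) ≤ (L x : ℝ) ^ (a - t) :=
      Real.rpow_le_rpow q1.le l1 hat.le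
    have e3 : (x ^ (-b + t)) ^ (a - t) = (x ^ ((b - t) * (a - t)))⁻¹ := by
      rw [← Real.rpow_mul x0.le, ← Real.rpow_neg x0.le]; congr 1; ring
    rw [e1, inv_le_comm₀ (by positivity) (by positivity)]
    refine le_trans ?_ e2
    rw [e3, inv_le_inv₀ (by positivity) (by positivity)]
    refine Real.rpow_le_rpow_of_exponent_ge x0 x3 ?_
    nlinarith

/-- The length is determined by `h L ^ (s + o(1)) ≍ 1`. -/
lemma PL.of_window {L : ℝ → ℕ} {s : ℝ} (hs : 0 < s)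
    (hup : ∀ ε > (0 : ℝ), ∃ C > (0 : ℝ), ∃ δ > (0 : ℝ), ∀ x : ℝ, 0 < x → x < δ →
      x * (L x : ℝ) ^ (s - ε) ≤ C)
    (hlow : ∀ ε > (0 : ℝ), ∃ c > (0 : ℝ), ∃ δ > (0 : ℝ), ∀ x : ℝ, 0 < x → x < δ →
      c ≤ x * (L x : ℝ) ^ (s + ε)) : PL (fun x => (L x : ℝ)) (-(1 / s)) := by
  intro ε hε
  -- lower bound
  have low : ∃ δ > (0 : ℝ), ∀ x : ℝ, 0 < x → x < δ → x ^ (-(1 / s) + ε) ≤ (L x : ℝ) := by
    -- exponent `t` with `1 / (s + t) ≥ 1 / s - ε / 2`
    set t : ℝ := ε * s ^ 2 / 2 with ht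
    have ht0 : 0 < t := by positivity
    obtain ⟨c, hc, δ₁, hδ₁, h1⟩ := hlow t ht0
    have hst : 0 < s + t := by positivity
    set u : ℝ := (1 / s - ε) * (s + t) with hu
    have hu1 : u < 1 := by
      have e : u = 1 + (t / s - ε * s - ε * t) := by rw [hu]; field_simp; ring
      have e2 : t / s = ε * s / 2 := by rw [ht]; field_simp
      rw [e, e2]
      have : 0 < ε * s := by positivity
      have : 0 < ε * t := by positivity
      linarith
    obtain ⟨δ₂, hδ₂, hδ₂1, h2⟩ := exists_rpow_le (ε := 1 - u) (c := c) (by linarith) hc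
    refine ⟨min δ₁ δ₂, lt_min hδ₁ hδ₂, fun x x0 x1 => ?_⟩
    have k1 := h1 x x0 (x1.trans_le (min_le_left _ _))
    have k2 := h2 x x0 (x1.trans_le (min_le_right _ _))
    have hLpow : x ^ (-u) ≤ (L x : ℝ) ^ (s + t) := by
      have e : x ^ (1 - u) = x * x ^ (-u) := by
        rw [show (1 - u : ℝ) = 1 + -u by ring, Real.rpow_add x0, Real.rpow_one]
      rw [e] at k2
      exact le_of_mul_le_mul_left (k2.trans k1) x0
    have hL0 : (0 : ℝ) ≤ L x := Nat.cast_nonneg _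
    have e2 : x ^ (-(1 / s) + ε) = (x ^ (-u)) ^ (1 / (s + t)) := by
      rw [← Real.rpow_mul x0.le]
      congr 1
      rw [hu]
      field_simp
      ring
    have e3 : ((L x : ℝ) ^ (s + t)) ^ (1 / (s + t)) = L x := by
      rw [← Real.rpow_mul hL0, mul_one_div_cancel hst.ne', Real.rpow_one]
    rw [e2, ← e3]
    exact Real.rpow_le_rpow (by positivity) hLpow (by positivity)
  have up : ∃ δ > (0 : ℝ), ∀ x : ℝ, 0 < x → x < δ → (L x : ℝ) ≤ x ^ (-(1 / s) - ε) := by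
    set t : ℝ := min (s / 2) (ε * s ^ 2 / (2 * (1 + ε * s))) with ht
    have ht0 : 0 < t := lt_min (by positivity) (by positivity)
    have hts : t ≤ s / 2 := min_le_left _ _
    have hte : t ≤ ε * s ^ 2 / (2 * (1 + ε * s)) := min_le_right _ _
    obtain ⟨C, hC, δ₁, hδ₁, h1⟩ := hup t ht0
    have hst : 0 < s - t := by linarith
    set u : ℝ := (1 / s + ε) * (s - t) with hu
    have hu1 : 1 < u := by
      have e : u = 1 + ε * s - t * ((1 + ε * s) / s) := by rw [hu]; field_simp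
      have e2 : t * ((1 + ε * s) / s) ≤ ε * s / 2 := by
        calc t * ((1 + ε * s) / s) ≤ (ε * s ^ 2 / (2 * (1 + ε * s))) * ((1 + ε * s) / s) :=
              mul_le_mul_of_nonneg_right hte (by positivity)
          _ = ε * s / 2 := by field_simp
      rw [e]
      have : 0 < ε * s := by positivity
      linarith
    obtain ⟨δ₂, hδ₂, hδ₂1, h2⟩ := exists_rpow_le (ε := u - 1) (c := C⁻¹) (by linarith)
      (by positivity)
    refine ⟨min δ₁ δ₂, lt_min hδ₁ hδ₂, fun x x0 x1 => ?_⟩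
    have k1 := h1 x x0 (x1.trans_le (min_le_left _ _))
    have k2 := h2 x x0 (x1.trans_le (min_le_right _ _))
    have hLpow : (L x : ℝ) ^ (s - t) ≤ x ^ (-u) := by
      have e : x ^ (u - 1) * x ^ (-u) = x⁻¹ := by
        rw [← Real.rpow_add x0, show u - 1 + -u = (-1 : ℝ) by ring, Real.rpow_neg_one]
      have k3 : (L x : ℝ) ^ (s - t) ≤ C * x⁻¹ := by
        rw [← div_eq_mul_inv, le_div_iff₀ x0, mul_comm]
        exact k1
      refine k3.trans ?_
      rw [← e]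
      calc C * (x ^ (u - 1) * x ^ (-u)) ≤ C * (C⁻¹ * x ^ (-u)) :=
            mul_le_mul_of_nonneg_left (mul_le_mul_of_nonneg_right k2 (by positivity)) hC.le
        _ = x ^ (-u) := by rw [← mul_assoc, mul_inv_cancel₀ hC.ne', one_mul]
    have hL0 : (0 : ℝ) ≤ L x := Nat.cast_nonneg _
    have e2 : x ^ (-(1 / s) - ε) = (x ^ (-u)) ^ (1 / (s - t)) := by
      rw [← Real.rpow_mul x0.le]
      congr 1
      rw [hu]
      field_simp
      ring
    have e3 : ((L x : ℝ) ^ (s - t)) ^ (1 / (s - t)) = L x := by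
      rw [← Real.rpow_mul hL0, mul_one_div_cancel hst.ne', Real.rpow_one]
    rw [e2, ← e3]
    exact Real.rpow_le_rpow (by positivity) hLpow (by positivity)
  obtain ⟨δ₁, hδ₁, h1⟩ := low
  obtain ⟨δ₂, hδ₂, h2⟩ := up
  exact ⟨min δ₁ δ₂, lt_min hδ₁ hδ₂, fun x x0 x1 =>
    ⟨h1 x x0 (x1.trans_le (min_le_left _ _)), h2 x x0 (x1.trans_le (min_le_right _ _))⟩⟩

end Pool.Agent.H31.EX
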